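import Pool.Agent.helper86.TorCert.Checks

set_option autoImplicit false

/-!
The positivity certificate `cert : CertStatement` (for MP_d63641_gt).
-/

namespace Pool.Agent.helper86.TorCert

open Pool.Agent.helper65.Tor Finset

lemma diag_bd (d e u : ℝ) (h : |d| ≤ e) : -(e * u ^ 2) ≤ d * u ^ 2 := by
  have := abs_le.mp h
  nlinarith [sq_nonneg u, mul_nonneg (by linarith [this.1] : 0 ≤ e + d) (sq_nonneg u)]

/-- the form with given coefficients -/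
def fm (r00 r10 r11 r20 r21 r22 r30 r31 r32 r33 r40 r41 r42 r43 r44 r50 r51 r52 r53 r54 r55 w0 w1 w2 w3 w4 w5 : ℝ) : ℝ :=
  r00 * w0 ^ 2 + r11 * w1 ^ 2 + r22 * w2 ^ 2 + r33 * w3 ^ 2 + r44 * w4 ^ 2 + r55 * w5 ^ 2
  + 2 * (r10 * w1 * w0 + r20 * w2 * w0 + r21 * w2 * w1 + r30 * w3 * w0 + r31 * w3 * w1 + r32 * w3 * w2 + r40 * w4 * w0 + r41 * w4 * w1 + r42 * w4 * w2 + r43 * w4 * w3 + r50 * w5 * w0 + r51 * w5 * w1 + r52 * w5 * w2 + r53 * w5 * w3 + r54 * w5 * w4)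

lemma fm_node (p q : ℕ) (hp : p < 24) (hq : q < 24)
    (r00 r10 r11 r20 r21 r22 r30 r31 r32 r33 r40 r41 r42 r43 r44 r50 r51 r52 r53 r54 r55 : ℝ)
    (h00 : |r00 - (nv p q U00 : ℝ) / 10 ^ 13| ≤ 3 / 10 ^ 6)
    (h10 : |r10 - (nv p q U10 : ℝ) / 10 ^ 13| ≤ 3 / 10 ^ 6)
    (h11 : |r11 - (nv p q U11 : ℝ) / 10 ^ 13| ≤ 3 / 10 ^ 6)
    (h20 : |r20 - (nv p q U20 : ℝ) / 10 ^ 13| ≤ 3 / 10 ^ 6)
    (h21 : |r21 - (nv p q U21 : ℝ) / 10 ^ 13| ≤ 3 / 10 ^ 6)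
    (h22 : |r22 - (nv p q U22 : ℝ) / 10 ^ 13| ≤ 3 / 10 ^ 6)
    (h30 : |r30 - (nv p q U30 : ℝ) / 10 ^ 13| ≤ 3 / 10 ^ 6)
    (h31 : |r31 - (nv p q U31 : ℝ) / 10 ^ 13| ≤ 3 / 10 ^ 6)
    (h32 : |r32 - (nv p q U32 : ℝ) / 10 ^ 13| ≤ 3 / 10 ^ 6)
    (h33 : |r33 - (nv p q U33 : ℝ) / 10 ^ 13| ≤ 3 / 10 ^ 6)
    (h40 : |r40 - (nv p q U40 : ℝ) / 10 ^ 13| ≤ 3 / 10 ^ 6)
    (h41 : |r41 - (nv p q U41 : ℝ) / 10 ^ 13| ≤ 3 / 10 ^ 6)
    (h42 : |r42 - (nv p q U42 : ℝ) / 10 ^ 13| ≤ 3 / 10 ^ 6)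
    (h43 : |r43 - (nv p q U43 : ℝ) / 10 ^ 13| ≤ 3 / 10 ^ 6)
    (h44 : |r44 - (nv p q U44 : ℝ) / 10 ^ 13| ≤ 3 / 10 ^ 6)
    (h50 : |r50 - (nv p q U50 : ℝ) / 10 ^ 13| ≤ 3 / 10 ^ 6)
    (h51 : |r51 - (nv p q U51 : ℝ) / 10 ^ 13| ≤ 3 / 10 ^ 6)
    (h52 : |r52 - (nv p q U52 : ℝ) / 10 ^ 13| ≤ 3 / 10 ^ 6)
    (h53 : |r53 - (nv p q U53 : ℝ) / 10 ^ 13| ≤ 3 / 10 ^ 6)
    (h54 : |r54 - (nv p q U54 : ℝ) / 10 ^ 13| ≤ 3 / 10 ^ 6)
    (h55 : |r55 - (nv p q U55 : ℝ) / 10 ^ 13| ≤ 3 / 10 ^ 6)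
    (w0 w1 w2 w3 w4 w5 : ℝ) :
    (1 / 1000) * (w0 ^ 2 + w1 ^ 2 + w2 ^ 2 + w3 ^ 2 + w4 ^ 2 + w5 ^ 2) ≤
      fm r00 r10 r11 r20 r21 r22 r30 r31 r32 r33 r40 r41 r42 r43 r44 r50 r51 r52 r53 r54 r55 w0 w1 w2 w3 w4 w5 := by
  have hc := chk6_ok (chkN_ok p q hp hq) w0 w1 w2 w3 w4 w5
  push_cast at hc
  have d00 := diag_bd _ _ w0 h00
  have d11 := diag_bd _ _ w1 h11
  have d22 := diag_bd _ _ w2 h22
  have d33 := diag_bd _ _ w3 h33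
  have d44 := diag_bd _ _ w4 h44
  have d55 := diag_bd _ _ w5 h55
  have d10 := err_bd _ _ w1 w0 h10
  have d20 := err_bd _ _ w2 w0 h20
  have d21 := err_bd _ _ w2 w1 h21
  have d30 := err_bd _ _ w3 w0 h30
  have d31 := err_bd _ _ w3 w1 h31
  have d32 := err_bd _ _ w3 w2 h32
  have d40 := err_bd _ _ w4 w0 h40
  have d41 := err_bd _ _ w4 w1 h41
  have d42 := err_bd _ _ w4 w2 h42
  have d43 := err_bd _ _ w4 w3 h43
  have d50 := err_bd _ _ w5 w0 h50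
  have d51 := err_bd _ _ w5 w1 h51
  have d52 := err_bd _ _ w5 w2 h52
  have d53 := err_bd _ _ w5 w3 h53
  have d54 := err_bd _ _ w5 w4 h54
  unfold fm
  linarith [hc, d00, d10, d11, d20, d21, d22, d30, d31, d32, d33, d40, d41, d42, d43, d44, d50, d51, d52, d53, d54, d55, sq_nonneg w0, sq_nonneg w1, sq_nonneg w2,
    sq_nonneg w3, sq_nonneg w4, sq_nonneg w5]

lemma sumW (x y : ℝ) : ∑ p ∈ range 24, ∑ q ∈ range 24, (W (x - th p) * W (y - th q)) = 1 := by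
  have h := kern_cos 0 0 (by norm_num) (by norm_num) x y
  rw [rk_eq 0 (by norm_num)] at h
  simp only [rt, Int.natAbs_zero] at h
  norm_num at h
  exact h

lemma fm_sum (R00 R10 R11 R20 R21 R22 R30 R31 R32 R33 R40 R41 R42 R43 R44 R50 R51 R52 R53 R54 R55 : ℕ → ℕ → ℝ) (V : ℕ → ℕ → ℝ)
    (w0 w1 w2 w3 w4 w5 : ℝ) :
    fm (∑ p ∈ range 24, ∑ q ∈ range 24, V p q * R00 p q) (∑ p ∈ range 24, ∑ q ∈ range 24, V p q * R10 p q) (∑ p ∈ range 24, ∑ q ∈ range 24, V p q * R11 p q) (∑ p ∈ range 24, ∑ q ∈ range 24, V p q * R20 p q) (∑ p ∈ range 24, ∑ q ∈ range 24, V p q * R21 p q) (∑ p ∈ range 24, ∑ q ∈ range 24, V p q * R22 p q) (∑ p ∈ range 24, ∑ q ∈ range 24, V p q * R30 p q) (∑ p ∈ range 24, ∑ q ∈ range 24, V p q * R31 p q) (∑ p ∈ range 24, ∑ q ∈ range 24, V p q * R32 p q) (∑ p ∈ range 24, ∑ q ∈ range 24, V p q * R33 p q) (∑ p ∈ range 24, ∑ q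 ∈ range 24, V p q * R40 p q) (∑ p ∈ range 24, ∑ q ∈ range 24, V p q * R41 p q) (∑ p ∈ range 24, ∑ q ∈ range 24, V p q * R42 p q) (∑ p ∈ range 24, ∑ q ∈ range 24, V p q * R43 p q) (∑ p ∈ range 24, ∑ q ∈ range 24, V p q * R44 p q) (∑ p ∈ range 24, ∑ q ∈ range 24, V p q * R50 p q) (∑ p ∈ range 24, ∑ q ∈ range 24, V p q * R51 p q) (∑ p ∈ range 24, ∑ q ∈ range 24, V p q * R52 p q) (∑ p ∈ range 24, ∑ q ∈ range 24, V p q * R53 p q) (∑ p ∈ range 24, ∑ q ∈ range 24, V p q * R54 p q) (∑ p ∈ range 24, ∑ q ∈ range 24, V p q * R55 p q)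
      w0 w1 w2 w3 w4 w5
    = ∑ p ∈ range 24, ∑ q ∈ range 24, V p q *
      fm (R00 p q) (R10 p q) (R11 p q) (R20 p q) (R21 p q) (R22 p q) (R30 p q) (R31 p q) (R32 p q) (R33 p q) (R40 p q) (R41 p q) (R42 p q) (R43 p q) (R44 p q) (R50 p q) (R51 p q) (R52 p q) (R53 p q) (R54 p q) (R55 p q) w0 w1 w2 w3 w4 w5 := by
  simp only [fm, sum_mul, mul_sum, ← sum_add_distrib]
  refine sum_congr rfl fun p _ => sum_congr rfl fun q _ => ?_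
  ring

theorem cert : CertStatement := by
  intro x y w0 w1 w2 w3 w4 w5
  obtain ⟨R00, a00, b00⟩ := entry C00 64000000000000 U00 (by norm_num) cl00 eb00
  obtain ⟨R10, a10, b10⟩ := entry C10 16000000000000 U10 (by norm_num) cl10 eb10
  obtain ⟨R11, a11, b11⟩ := entry C11 64000000000000 U11 (by norm_num) cl11 eb11
  obtain ⟨R20, a20, b20⟩ := entry C20 400000000 U20 (by norm_num) cl20 eb20
  obtain ⟨R21, a21, b21⟩ := entry C21 800000000 U21 (by norm_num) cl21 eb21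
  obtain ⟨R22, a22, b22⟩ := entry C22 20000 U22 (by norm_num) cl22 eb22
  obtain ⟨R30, a30, b30⟩ := entry C30 800000000 U30 (by norm_num) cl30 eb30
  obtain ⟨R31, a31, b31⟩ := entry C31 400000000 U31 (by norm_num) cl31 eb31
  obtain ⟨R32, a32, b32⟩ := entry C32 20000 U32 (by norm_num) cl32 eb32
  obtain ⟨R33, a33, b33⟩ := entry C33 20000 U33 (by norm_num) cl33 eb33
  obtain ⟨R40, a40, b40⟩ := entry C40 400000000 U40 (by norm_num) cl40 eb40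
  obtain ⟨R41, a41, b41⟩ := entry C41 800000000 U41 (by norm_num) cl41 eb41
  obtain ⟨R42, a42, b42⟩ := entry C42 20000 U42 (by norm_num) cl42 eb42
  obtain ⟨R43, a43, b43⟩ := entry C43 40000 U43 (by norm_num) cl43 eb43
  obtain ⟨R44, a44, b44⟩ := entry C44 20000 U44 (by norm_num) cl44 eb44
  obtain ⟨R50, a50, b50⟩ := entry C50 800000000 U50 (by norm_num) cl50 eb50
  obtain ⟨R51, a51, b51⟩ := entry C51 400000000 U51 (by norm_num) cl51 eb51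
  obtain ⟨R52, a52, b52⟩ := entry C52 40000 U52 (by norm_num) cl52 eb52
  obtain ⟨R53, a53, b53⟩ := entry C53 20000 U53 (by norm_num) cl53 eb53
  obtain ⟨R54, a54, b54⟩ := entry C54 20000 U54 (by norm_num) cl54 eb54
  obtain ⟨R55, a55, b55⟩ := entry C55 20000 U55 (by norm_num) cl55 eb55
  have key : (djets x y).Pq w0 w1 w2 w3 w4 w5 = ∑ p ∈ range 24, ∑ q ∈ range 24,
      (W (x - th p) * W (y - th q)) *
        fm (R00 p q) (R10 p q) (R11 p q) (R20 p q) (R21 p q) (R22 p q) (R30 p q) (R31 p q) (R32 p q) (R33 p q) (R40 p q) (R41 p q) (R42 p q) (R43 p q) (R44 p q) (R50 p q) (R51 p q) (R52 p q) (R53 p q) (R54 p q) (R55 p q) w0 w1 w2 w3 w4 w5 := by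
    rw [← fm_sum R00 R10 R11 R20 R21 R22 R30 R31 R32 R33 R40 R41 R42 R43 R44 R50 R51 R52 R53 R54 R55
      (fun p q => W (x - th p) * W (y - th q)) w0 w1 w2 w3 w4 w5]
    rw [← a00 x y, ← a10 x y, ← a11 x y, ← a20 x y, ← a21 x y, ← a22 x y, ← a30 x y, ← a31 x y, ← a32 x y, ← a33 x y, ← a40 x y, ← a41 x y, ← a42 x y, ← a43 x y, ← a44 x y, ← a50 x y, ← a51 x y, ← a52 x y, ← a53 x y, ← a54 x y, ← a55 x y]
    push_cast
    rw [← P00_eq, ← P10_eq, ← P11_eq, ← P20_eq, ← P21_eq, ← P22_eq, ← P30_eq, ← P31_eq, ← P32_eq, ← P33_eq, ← P40_eq, ← P41_eq, ← P42_eq, ← P43_eq, ← P44_eq, ← P50_eq, ← P51_eq, ← P52_eq, ← P53_eq, ← P54_eq, ← P55_eq]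
    rfl
  rw [key]
  calc (1 / 1000) * (w0 ^ 2 + w1 ^ 2 + w2 ^ 2 + w3 ^ 2 + w4 ^ 2 + w5 ^ 2)
      = ∑ p ∈ range 24, ∑ q ∈ range 24, (W (x - th p) * W (y - th q)) *
        ((1 / 1000) * (w0 ^ 2 + w1 ^ 2 + w2 ^ 2 + w3 ^ 2 + w4 ^ 2 + w5 ^ 2)) := by
        simp only [← sum_mul]
        rw [sumW, one_mul]
    _ ≤ _ := by
        refine sum_le_sum fun p hp => sum_le_sum fun q hq => ?_
        refine mul_le_mul_of_nonneg_left ?_ (mul_nonneg (W_nonneg _) (W_nonneg _))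
        exact fm_node p q (mem_range.mp hp) (mem_range.mp hq) _ _ _ _ _ _ _ _ _ _ _ _ _ _ _ _ _
          _ _ _ _ (b00 p q) (b10 p q) (b11 p q) (b20 p q) (b21 p q) (b22 p q) (b30 p q) (b31 p q) (b32 p q) (b33 p q) (b40 p q) (b41 p q) (b42 p q) (b43 p q) (b44 p q) (b50 p q) (b51 p q) (b52 p q) (b53 p q) (b54 p q) (b55 p q) w0 w1 w2 w3 w4 w5

end Pool.Agent.helper86.TorCert
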