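import Pool.Agent.helper65.Tor.Defs

set_option autoImplicit false

/-!
Computable algebra of trigonometric polynomials on the 2-torus (for MP_d63641_gt).
-/

namespace Pool.Agent.helper86.TorCert

open Pool.Agent.helper65.Tor

/-- linear functional on trigonometric polynomials, given by its values on the modes -/
noncomputable def lin (g1 g2 : ℤ → ℤ → ℝ) (f : TP) : ℝ :=
  (f.map fun t => (t.2.2.1 : ℝ) * g1 t.1 t.2.1 + (t.2.2.2 : ℝ) * g2 t.1 t.2.1).sum

@[simp] lemma lin_nil (g1 g2 : ℤ → ℤ → ℝ) : lin g1 g2 [] = 0 := by simp [lin]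

lemma lin_cons (g1 g2 : ℤ → ℤ → ℝ) (t : ℤ × ℤ × ℤ × ℤ) (f : TP) :
    lin g1 g2 (t :: f) =
      ((t.2.2.1 : ℝ) * g1 t.1 t.2.1 + (t.2.2.2 : ℝ) * g2 t.1 t.2.1) + lin g1 g2 f := by
  simp [lin]

lemma lin_append (g1 g2 : ℤ → ℤ → ℝ) (f g : TP) :
    lin g1 g2 (f ++ g) = lin g1 g2 f + lin g1 g2 g := by
  simp [lin]

/-- evaluation without the denominator -/
noncomputable def evI (f : TP) (x y : ℝ) : ℝ :=
  lin (fun k l => Real.cos (k * x + l * y)) (fun k l => Real.sin (k * x + l * y)) f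

lemma ev_eq (f : TP) (x y : ℝ) : ev f x y = evI f x y / 20000 := by
  induction f with
  | nil => simp [ev, evI]
  | cons t f ih =>
    have h1 : ev (t :: f) x y = ((t.2.2.1 : ℝ) * Real.cos (t.1 * x + t.2.1 * y)
      + (t.2.2.2 : ℝ) * Real.sin (t.1 * x + t.2.1 * y)) / 20000 + ev f x y := by
      simp [ev]
    have h2 : evI (t :: f) x y = ((t.2.2.1 : ℝ) * Real.cos (t.1 * x + t.2.1 * y)
      + (t.2.2.2 : ℝ) * Real.sin (t.1 * x + t.2.1 * y)) + evI f x y := by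
      simp [evI, lin_cons]
    rw [h1, h2, ih]; ring

/-- sum -/
def add (f g : TP) : TP := f ++ g

/-- scalar multiple -/
def sm (c : ℤ) (f : TP) : TP := f.map fun t => (t.1, t.2.1, c * t.2.2.1, c * t.2.2.2)

/-- twice the product of a mode and a trigonometric polynomial -/
def mulT (s : ℤ × ℤ × ℤ × ℤ) : TP → TP
  | [] => []
  | t :: g => (s.1 + t.1, s.2.1 + t.2.1, s.2.2.1 * t.2.2.1 - s.2.2.2 * t.2.2.2,
        s.2.2.1 * t.2.2.2 + s.2.2.2 * t.2.2.1) ::
      (s.1 - t.1, s.2.1 - t.2.1, s.2.2.1 * t.2.2.1 + s.2.2.2 * t.2.2.2,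
        s.2.2.2 * t.2.2.1 - s.2.2.1 * t.2.2.2) :: mulT s g

/-- twice the product -/
def mul : TP → TP → TP
  | [], _ => []
  | s :: f, g => mulT s g ++ mul f g

lemma evI_nil (x y : ℝ) : evI [] x y = 0 := by simp [evI]

lemma evI_cons (t : ℤ × ℤ × ℤ × ℤ) (f : TP) (x y : ℝ) :
    evI (t :: f) x y = ((t.2.2.1 : ℝ) * Real.cos (t.1 * x + t.2.1 * y)
      + (t.2.2.2 : ℝ) * Real.sin (t.1 * x + t.2.1 * y)) + evI f x y := by
  simp [evI, lin_cons]

lemma evI_add (f g : TP) (x y : ℝ) : evI (add f g) x y = evI f x y + evI g x y := by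
  simp [evI, add, lin_append]

lemma evI_sm (c : ℤ) (f : TP) (x y : ℝ) : evI (sm c f) x y = c * evI f x y := by
  induction f with
  | nil => simp [sm, evI]
  | cons t f ih =>
    have : sm c (t :: f) = (t.1, t.2.1, c * t.2.2.1, c * t.2.2.2) :: sm c f := rfl
    rw [this, evI_cons, evI_cons, ih]; push_cast; ring

lemma evI_mulT (s : ℤ × ℤ × ℤ × ℤ) (g : TP) (x y : ℝ) :
    evI (mulT s g) x y = 2 * ((s.2.2.1 : ℝ) * Real.cos (s.1 * x + s.2.1 * y)
      + (s.2.2.2 : ℝ) * Real.sin (s.1 * x + s.2.1 * y)) * evI g x y := by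
  induction g with
  | nil => simp [mulT, evI]
  | cons t g ih =>
    rw [mulT, evI_cons, evI_cons, evI_cons, ih]
    push_cast
    have e1 : ((s.1 : ℝ) + t.1) * x + ((s.2.1 : ℝ) + t.2.1) * y
        = (s.1 * x + s.2.1 * y) + (t.1 * x + t.2.1 * y) := by ring
    have e2 : ((s.1 : ℝ) - t.1) * x + ((s.2.1 : ℝ) - t.2.1) * y
        = (s.1 * x + s.2.1 * y) - (t.1 * x + t.2.1 * y) := by ring
    rw [e1, e2]
    generalize (s.1 : ℝ) * x + s.2.1 * y = A
    generalize (t.1 : ℝ) * x + t.2.1 * y = B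
    rw [Real.cos_add, Real.sin_add, Real.cos_sub, Real.sin_sub]
    ring

lemma evI_mul (f g : TP) (x y : ℝ) :
    evI (mul f g) x y = 2 * evI f x y * evI g x y := by
  induction f with
  | nil => simp [mul, evI]
  | cons s f ih =>
    have : evI (mulT s g ++ mul f g) x y = evI (mulT s g) x y + evI (mul f g) x y :=
      evI_add _ _ x y
    rw [mul, this, evI_mulT, ih, evI_cons]; ring

/-! ### normalization -/

/-- canonical sign of a mode -/
def canon (t : ℤ × ℤ × ℤ × ℤ) : ℤ × ℤ × ℤ × ℤ :=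
  if t.1 < 0 ∨ (t.1 = 0 ∧ t.2.1 < 0) then (-t.1, -t.2.1, t.2.2.1, -t.2.2.2) else t

/-- insertion -/
def ins (t : ℤ × ℤ × ℤ × ℤ) : TP → TP
  | [] => [t]
  | s :: r => if s.1 = t.1 ∧ s.2.1 = t.2.1 then
      (s.1, s.2.1, s.2.2.1 + t.2.2.1, s.2.2.2 + t.2.2.2) :: r else s :: ins t r

/-- merge equal modes -/
def nrm : TP → TP
  | [] => []
  | t :: f => ins (canon t) (nrm f)

/-- drop zero terms -/
def drop0 : TP → TP
  | [] => []
  | t :: f => if t.2.2.1 = 0 ∧ t.2.2.2 = 0 then drop0 f else t :: drop0 f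

lemma lin_canon (g1 g2 : ℤ → ℤ → ℝ) (h1 : ∀ k l, g1 (-k) (-l) = g1 k l)
    (h2 : ∀ k l, g2 (-k) (-l) = - g2 k l) (t : ℤ × ℤ × ℤ × ℤ) (f : TP) :
    lin g1 g2 (canon t :: f) = lin g1 g2 (t :: f) := by
  rw [lin_cons, lin_cons]
  unfold canon
  split_ifs
  · simp only [h1, h2]; push_cast; ring
  · rfl

lemma lin_ins (g1 g2 : ℤ → ℤ → ℝ) (t : ℤ × ℤ × ℤ × ℤ) (f : TP) :
    lin g1 g2 (ins t f) = lin g1 g2 (t :: f) := by
  induction f with
  | nil => rfl
  | cons s r ih =>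
    rw [ins]
    split_ifs with h
    · obtain ⟨ha, hb⟩ := h
      rw [lin_cons, lin_cons, lin_cons, ← ha, ← hb]; push_cast; ring
    · rw [lin_cons, ih, lin_cons, lin_cons, lin_cons]; ring

lemma lin_nrm (g1 g2 : ℤ → ℤ → ℝ) (h1 : ∀ k l, g1 (-k) (-l) = g1 k l)
    (h2 : ∀ k l, g2 (-k) (-l) = - g2 k l) (f : TP) :
    lin g1 g2 (nrm f) = lin g1 g2 f := by
  induction f with
  | nil => rfl
  | cons t f ih =>
    rw [nrm, lin_ins, lin_canon g1 g2 h1 h2, lin_cons, lin_cons, ih]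

lemma lin_drop0 (g1 g2 : ℤ → ℤ → ℝ) (f : TP) :
    lin g1 g2 (drop0 f) = lin g1 g2 f := by
  induction f with
  | nil => rfl
  | cons t f ih =>
    rw [drop0]
    split_ifs with h
    · rw [ih, lin_cons, h.1, h.2]; simp
    · rw [lin_cons, lin_cons, ih]

lemma evI_nrm (f : TP) (x y : ℝ) : evI (nrm f) x y = evI f x y := by
  unfold evI
  apply lin_nrm
  · intro k l
    have : (((-k : ℤ) : ℝ)) * x + ((-l : ℤ) : ℝ) * y = -(k * x + l * y) := by push_cast; ring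
    rw [this, Real.cos_neg]
  · intro k l
    have : (((-k : ℤ) : ℝ)) * x + ((-l : ℤ) : ℝ) * y = -(k * x + l * y) := by push_cast; ring
    rw [this, Real.sin_neg]

lemma evI_drop0 (f : TP) (x y : ℝ) : evI (drop0 f) x y = evI f x y := by
  unfold evI
  apply lin_drop0

end Pool.Agent.helper86.TorCert
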