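import Pool.Agent.helper86.TorCert.Node

set_option autoImplicit false

/-!
Kernel checks and the positivity certificate (for MP_d63641_gt).
-/

namespace Pool.Agent.helper86.TorCert

open Pool.Agent.helper65.Tor Finset

lemma cl00 : close 64000000000000 (drop0 (nrm C00)) U00 = true := by decide +kernel
lemma cl10 : close 16000000000000 (drop0 (nrm C10)) U10 = true := by decide +kernel
lemma cl11 : close 64000000000000 (drop0 (nrm C11)) U11 = true := by decide +kernel
lemma cl20 : close 400000000 (drop0 (nrm C20)) U20 = true := by decide +kernel
lemma cl21 : close 800000000 (drop0 (nrm C21)) U21 = true := by decide +kernel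
lemma cl22 : close 20000 (drop0 (nrm C22)) U22 = true := by decide +kernel
lemma cl30 : close 800000000 (drop0 (nrm C30)) U30 = true := by decide +kernel
lemma cl31 : close 400000000 (drop0 (nrm C31)) U31 = true := by decide +kernel
lemma cl32 : close 20000 (drop0 (nrm C32)) U32 = true := by decide +kernel
lemma cl33 : close 20000 (drop0 (nrm C33)) U33 = true := by decide +kernel
lemma cl40 : close 400000000 (drop0 (nrm C40)) U40 = true := by decide +kernel
lemma cl41 : close 800000000 (drop0 (nrm C41)) U41 = true := by decide +kernel
lemma cl42 : close 20000 (drop0 (nrm C42)) U42 = true := by decide +kernel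
lemma cl43 : close 40000 (drop0 (nrm C43)) U43 = true := by decide +kernel
lemma cl44 : close 20000 (drop0 (nrm C44)) U44 = true := by decide +kernel
lemma cl50 : close 800000000 (drop0 (nrm C50)) U50 = true := by decide +kernel
lemma cl51 : close 400000000 (drop0 (nrm C51)) U51 = true := by decide +kernel
lemma cl52 : close 40000 (drop0 (nrm C52)) U52 = true := by decide +kernel
lemma cl53 : close 20000 (drop0 (nrm C53)) U53 = true := by decide +kernel
lemma cl54 : close 20000 (drop0 (nrm C54)) U54 = true := by decide +kernel
lemma cl55 : close 20000 (drop0 (nrm C55)) U55 = true := by decide +kernel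
lemma eb00 : ebd U00 ≤ 30000000 := by decide +kernel
lemma eb10 : ebd U10 ≤ 30000000 := by decide +kernel
lemma eb11 : ebd U11 ≤ 30000000 := by decide +kernel
lemma eb20 : ebd U20 ≤ 30000000 := by decide +kernel
lemma eb21 : ebd U21 ≤ 30000000 := by decide +kernel
lemma eb22 : ebd U22 ≤ 30000000 := by decide +kernel
lemma eb30 : ebd U30 ≤ 30000000 := by decide +kernel
lemma eb31 : ebd U31 ≤ 30000000 := by decide +kernel
lemma eb32 : ebd U32 ≤ 30000000 := by decide +kernel
lemma eb33 : ebd U33 ≤ 30000000 := by decide +kernel
lemma eb40 : ebd U40 ≤ 30000000 := by decide +kernel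
lemma eb41 : ebd U41 ≤ 30000000 := by decide +kernel
lemma eb42 : ebd U42 ≤ 30000000 := by decide +kernel
lemma eb43 : ebd U43 ≤ 30000000 := by decide +kernel
lemma eb44 : ebd U44 ≤ 30000000 := by decide +kernel
lemma eb50 : ebd U50 ≤ 30000000 := by decide +kernel
lemma eb51 : ebd U51 ≤ 30000000 := by decide +kernel
lemma eb52 : ebd U52 ≤ 30000000 := by decide +kernel
lemma eb53 : ebd U53 ≤ 30000000 := by decide +kernel
lemma eb54 : ebd U54 ≤ 30000000 := by decide +kernel
lemma eb55 : ebd U55 ≤ 30000000 := by decide +kernel
lemma row0 : chkRow 0 = true := by decide +kernel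
lemma row1 : chkRow 1 = true := by decide +kernel
lemma row2 : chkRow 2 = true := by decide +kernel
lemma row3 : chkRow 3 = true := by decide +kernel
lemma row4 : chkRow 4 = true := by decide +kernel
lemma row5 : chkRow 5 = true := by decide +kernel
lemma row6 : chkRow 6 = true := by decide +kernel
lemma row7 : chkRow 7 = true := by decide +kernel
lemma row8 : chkRow 8 = true := by decide +kernel
lemma row9 : chkRow 9 = true := by decide +kernel
lemma row10 : chkRow 10 = true := by decide +kernel
lemma row11 : chkRow 11 = true := by decide +kernel
lemma row12 : chkRow 12 = true := by decide +kernel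
lemma row13 : chkRow 13 = true := by decide +kernel
lemma row14 : chkRow 14 = true := by decide +kernel
lemma row15 : chkRow 15 = true := by decide +kernel
lemma row16 : chkRow 16 = true := by decide +kernel
lemma row17 : chkRow 17 = true := by decide +kernel
lemma row18 : chkRow 18 = true := by decide +kernel
lemma row19 : chkRow 19 = true := by decide +kernel
lemma row20 : chkRow 20 = true := by decide +kernel
lemma row21 : chkRow 21 = true := by decide +kernel
lemma row22 : chkRow 22 = true := by decide +kernel
lemma row23 : chkRow 23 = true := by decide +kernel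

lemma chkN_ok (p q : ℕ) (hp : p < 24) (hq : q < 24) : chkN p q = true := by
  have h : chkRow p = true := by
    interval_cases p
    · exact row0
    · exact row1
    · exact row2
    · exact row3
    · exact row4
    · exact row5
    · exact row6
    · exact row7
    · exact row8
    · exact row9
    · exact row10
    · exact row11
    · exact row12
    · exact row13
    · exact row14
    · exact row15
    · exact row16
    · exact row17
    · exact row18
    · exact row19
    · exact row20
    · exact row21
    · exact row22
    · exact row23
  simp only [chkRow, List.all_eq_true, List.mem_range] at h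
  exact h q hq

lemma err_bd (d e u v : ℝ) (h : |d| ≤ e) : -(e * (u ^ 2 + v ^ 2)) ≤ 2 * (d * u * v) := by
  have := abs_le.mp h
  nlinarith [sq_nonneg (u + v), sq_nonneg (u - v), this.1, this.2,
    mul_nonneg (sub_nonneg.2 this.2) (sq_nonneg (u - v)),
    mul_nonneg (sub_nonneg.2 (neg_le_iff_add_nonneg.2 (by linarith [this.1] : 0 ≤ e + d)))
      (sq_nonneg (u + v))]

end Pool.Agent.helper86.TorCert
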