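import Mathlib

set_option autoImplicit false

/-!
A nonnegative trigonometric kernel `W` of degree 17 and the exact discretisation on 24 nodes of
trigonometric polynomials of degree at most 6 (for MP_d63641_gt).
-/

namespace Pool.Agent.helper86.TorCert

open Finset

/-- coefficients -/
def kl : List ℤ := [1, 2, 3, 4, 4, 5, 5, 6, 6, 6, 6, 5, 5, 4, 4, 3, 2, 1]

def ka (m : ℕ) : ℤ := kl.getD m 0

noncomputable def FW (t : ℝ) : ℂ :=
  ∑ m ∈ range 18, (ka m : ℂ) * Complex.exp ((m : ℂ) * t * Complex.I)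

noncomputable def W (t : ℝ) : ℝ := Complex.normSq (FW t) / (24 * 336)

lemma W_nonneg (t : ℝ) : 0 ≤ W t := by
  unfold W
  exact div_nonneg (Complex.normSq_nonneg _) (by norm_num)

/-- nodes -/
noncomputable def th (p : ℕ) : ℝ := Real.pi * p / 12

/-- autocorrelation -/
def rk (k : ℤ) : ℤ :=
  ∑ m ∈ range 18, ∑ n ∈ range 18, if (m : ℤ) - n = k then ka m * ka n else 0

lemma conj_FW (t : ℝ) : (starRingEnd ℂ) (FW t) =
    ∑ n ∈ range 18, (ka n : ℂ) * Complex.exp (-((n : ℂ) * t * Complex.I)) := by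
  unfold FW
  rw [map_sum]
  refine sum_congr rfl fun n _ => ?_
  rw [map_mul, ← Complex.exp_conj]
  congr 1
  · simp
  · congr 1; simp

lemma W_expand (t : ℝ) : (W t : ℂ) * (24 * 336) =
    ∑ m ∈ range 18, ∑ n ∈ range 18, ((ka m * ka n : ℤ) : ℂ) *
      Complex.exp (((m : ℂ) - n) * t * Complex.I) := by
  have h : (W t : ℂ) * (24 * 336) = (Complex.normSq (FW t) : ℂ) := by
    unfold W
    push_cast
    field_simp
  rw [h, Complex.normSq_eq_conj_mul_self, mul_comm, conj_FW]
  unfold FW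
  rw [sum_mul_sum]
  refine sum_congr rfl fun m _ => sum_congr rfl fun n _ => ?_
  rw [mul_mul_mul_comm, ← Complex.exp_add]
  push_cast
  congr 2
  ring

lemma sum_exp (j : ℤ) (hj : |j| ≤ 23) :
    ∑ p ∈ range 24, Complex.exp ((j : ℂ) * (th p : ℝ) * Complex.I) = if j = 0 then 24 else 0 := by
  split_ifs with h
  · subst h; simp
  · have h1 : ∀ p ∈ range 24, Complex.exp ((j : ℂ) * (th p : ℝ) * Complex.I)
        = (Complex.exp ((j : ℂ) * Real.pi / 12 * Complex.I)) ^ p := by
      intro p _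
      rw [← Complex.exp_nat_mul]
      congr 1
      unfold th
      push_cast
      ring
    rw [sum_congr rfl h1]
    have hne : Complex.exp ((j : ℂ) * Real.pi / 12 * Complex.I) ≠ 1 := by
      intro h2
      rw [Complex.exp_eq_one_iff] at h2
      obtain ⟨n, hn⟩ := h2
      have hpi : (Real.pi : ℂ) ≠ 0 := by exact_mod_cast Real.pi_ne_zero
      have h3 : (j : ℂ) = 24 * n := by
        have h4 : (j : ℂ) * (Real.pi * Complex.I) = (24 * n) * (Real.pi * Complex.I) := by
          linear_combination 12 * hn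
        exact mul_right_cancel₀ (mul_ne_zero hpi Complex.I_ne_zero) h4
      have h5 : j = 24 * n := by exact_mod_cast h3
      rw [abs_le] at hj
      omega
    have hpow : (Complex.exp ((j : ℂ) * Real.pi / 12 * Complex.I)) ^ 24 = 1 := by
      rw [← Complex.exp_nat_mul, Complex.exp_eq_one_iff]
      refine ⟨j, ?_⟩
      push_cast
      ring
    have := geom_sum_eq hne 24
    rw [hpow, sub_self, zero_div] at this
    exact this

lemma kern1 (k : ℤ) (hk : |k| ≤ 6) (t : ℝ) :
    ∑ p ∈ range 24, (W (t - th p) : ℂ) * Complex.exp ((k : ℂ) * (th p : ℝ) * Complex.I)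
      = ((rk k : ℤ) : ℂ) / 336 * Complex.exp ((k : ℂ) * t * Complex.I) := by
  have h1 : (∑ p ∈ range 24, (W (t - th p) : ℂ) *
      Complex.exp ((k : ℂ) * (th p : ℝ) * Complex.I)) * (24 * 336)
      = 24 * (rk k : ℤ) * Complex.exp ((k : ℂ) * t * Complex.I) := by
    have h2 : (∑ p ∈ range 24, (W (t - th p) : ℂ) *
        Complex.exp ((k : ℂ) * (th p : ℝ) * Complex.I)) * (24 * 336)
        = ∑ p ∈ range 24, ∑ m ∈ range 18, ∑ n ∈ range 18, ((ka m * ka n : ℤ) : ℂ) *
          Complex.exp (((m : ℂ) - n) * t * Complex.I) *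
          Complex.exp (((k - m + n : ℤ) : ℂ) * (th p : ℝ) * Complex.I) := by
      rw [sum_mul]
      refine sum_congr rfl fun p _ => ?_
      have : (W (t - th p) : ℂ) * Complex.exp ((k : ℂ) * (th p : ℝ) * Complex.I) * (24 * 336)
          = ((W (t - th p) : ℂ) * (24 * 336)) *
            Complex.exp ((k : ℂ) * (th p : ℝ) * Complex.I) := by ring
      rw [this, W_expand, sum_mul]
      refine sum_congr rfl fun m _ => ?_
      rw [sum_mul]
      refine sum_congr rfl fun n _ => ?_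
      rw [mul_assoc (((ka m * ka n : ℤ) : ℂ)), mul_assoc (((ka m * ka n : ℤ) : ℂ)),
        ← Complex.exp_add, ← Complex.exp_add]
      congr 2
      push_cast
      ring
    rw [h2, sum_comm]
    have h3 : ∀ m ∈ range 18, (∑ p ∈ range 24, ∑ n ∈ range 18, ((ka m * ka n : ℤ) : ℂ) *
          Complex.exp (((m : ℂ) - n) * t * Complex.I) *
          Complex.exp (((k - m + n : ℤ) : ℂ) * (th p : ℝ) * Complex.I))
        = ∑ n ∈ range 18, 24 * (((if (m : ℤ) - n = k then ka m * ka n else 0 : ℤ) : ℂ)) *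
            Complex.exp ((k : ℂ) * t * Complex.I) := by
      intro m hm
      rw [sum_comm]
      refine sum_congr rfl fun n hn => ?_
      rw [← mul_sum, sum_exp]
      · by_cases h : (m : ℤ) - n = k
        · have h' : (k - m + n : ℤ) = 0 := by omega
          have h'' : (m : ℂ) - n = (k : ℂ) := by
            rw [← h]; push_cast; ring
          rw [if_pos h, if_pos h', h'']
          ring
        · have h' : (k - m + n : ℤ) ≠ 0 := by omega
          rw [if_neg h, if_neg h']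
          simp
      · rw [mem_range] at hm hn
        rw [abs_le] at hk ⊢
        omega
    rw [sum_congr rfl h3]
    unfold rk
    push_cast
    simp only [mul_sum, sum_mul]
  have h24 : (24 * 336 : ℂ) ≠ 0 := by norm_num
  apply mul_right_cancel₀ h24
  rw [h1]
  ring

/-- the two-dimensional identity -/
lemma kern2 (k l : ℤ) (hk : |k| ≤ 6) (hl : |l| ≤ 6) (x y : ℝ) :
    ∑ p ∈ range 24, ∑ q ∈ range 24, ((W (x - th p) * W (y - th q) : ℝ) : ℂ) *
        Complex.exp (((k * th p + l * th q : ℝ) : ℂ) * Complex.I)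
      = ((rk k : ℤ) : ℂ) / 336 * (((rk l : ℤ) : ℂ) / 336) *
        Complex.exp (((k * x + l * y : ℝ) : ℂ) * Complex.I) := by
  have h1 : ((rk k : ℤ) : ℂ) / 336 * (((rk l : ℤ) : ℂ) / 336) *
        Complex.exp (((k * x + l * y : ℝ) : ℂ) * Complex.I)
      = (((rk k : ℤ) : ℂ) / 336 * Complex.exp ((k : ℂ) * x * Complex.I)) *
        (((rk l : ℤ) : ℂ) / 336 * Complex.exp ((l : ℂ) * y * Complex.I)) := by
    rw [mul_mul_mul_comm, ← Complex.exp_add]
    congr 2
    push_cast
    ring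
  rw [h1, ← kern1 k hk x, ← kern1 l hl y, sum_mul_sum]
  refine sum_congr rfl fun p _ => sum_congr rfl fun q _ => ?_
  rw [mul_mul_mul_comm, ← Complex.exp_add]
  push_cast
  congr 2
  ring

lemma kern_cos (k l : ℤ) (hk : |k| ≤ 6) (hl : |l| ≤ 6) (x y : ℝ) :
    ∑ p ∈ range 24, ∑ q ∈ range 24, (W (x - th p) * W (y - th q)) *
        Real.cos (k * th p + l * th q)
      = (rk k : ℝ) / 336 * ((rk l : ℝ) / 336) * Real.cos (k * x + l * y) := by
  have h := congrArg Complex.re (kern2 k l hk hl x y)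
  rw [Complex.re_sum] at h
  have h2 : ((rk k : ℤ) : ℂ) / 336 * (((rk l : ℤ) : ℂ) / 336)
      = (((rk k : ℝ) / 336 * ((rk l : ℝ) / 336) : ℝ) : ℂ) := by push_cast; ring
  rw [h2, Complex.re_ofReal_mul, Complex.exp_ofReal_mul_I_re] at h
  rw [← h]
  refine sum_congr rfl fun p _ => ?_
  rw [Complex.re_sum]
  refine sum_congr rfl fun q _ => ?_
  rw [Complex.re_ofReal_mul, Complex.exp_ofReal_mul_I_re]

lemma kern_sin (k l : ℤ) (hk : |k| ≤ 6) (hl : |l| ≤ 6) (x y : ℝ) :
    ∑ p ∈ range 24, ∑ q ∈ range 24, (W (x - th p) * W (y - th q)) *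
        Real.sin (k * th p + l * th q)
      = (rk k : ℝ) / 336 * ((rk l : ℝ) / 336) * Real.sin (k * x + l * y) := by
  have h := congrArg Complex.im (kern2 k l hk hl x y)
  rw [Complex.im_sum] at h
  have h2 : ((rk k : ℤ) : ℂ) / 336 * (((rk l : ℤ) : ℂ) / 336)
      = (((rk k : ℝ) / 336 * ((rk l : ℝ) / 336) : ℝ) : ℂ) := by push_cast; ring
  rw [h2, Complex.im_ofReal_mul, Complex.exp_ofReal_mul_I_im] at h
  rw [← h]
  refine sum_congr rfl fun p _ => ?_
  rw [Complex.im_sum]
  refine sum_congr rfl fun q _ => ?_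
  rw [Complex.im_ofReal_mul, Complex.exp_ofReal_mul_I_im]

/-- table of the autocorrelation -/
def rt (k : ℤ) : ℤ :=
  match k.natAbs with
  | 0 => 336 | 1 => 330 | 2 => 318 | 3 => 298 | 4 => 274 | 5 => 247 | 6 => 216 | _ => 1

lemma rk_eq (k : ℤ) (hk : |k| ≤ 6) : rk k = rt k := by
  rw [abs_le] at hk
  obtain ⟨h1, h2⟩ := hk
  have : k = -6 ∨ k = -5 ∨ k = -4 ∨ k = -3 ∨ k = -2 ∨ k = -1 ∨ k = 0 ∨ k = 1 ∨ k = 2 ∨ k = 3
    ∨ k = 4 ∨ k = 5 ∨ k = 6 := by omega
  rcases this with h | h | h | h | h | h | h | h | h | h | h | h | h <;> subst h <;> decide +kernel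

lemma rt_pos (k : ℤ) : 0 < rt k := by
  unfold rt; split <;> norm_num

end Pool.Agent.helper86.TorCert
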