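import Pool.Agent.helper86.TorCert.Entries
import Pool.Agent.helper86.TorCert.Kern

set_option autoImplicit false

/-!
Rounded node data (for MP_d63641_gt): `U i j` approximates the Fourier coefficients of the entry
`P i j` divided by the kernel multipliers, times `10 ^ 7`.
-/

namespace Pool.Agent.helper86.TorCert

open Pool.Agent.helper65.Tor

def U00 : TP := [(.ofNat 0, .ofNat 0, .ofNat 119592, .ofNat 0), (.ofNat 4, .ofNat 0, .ofNat 4625, .ofNat 0), (.ofNat 2, .negSucc 1, .ofNat 2634, .ofNat 0), (.ofNat 2, .ofNat 2, .ofNat 4692, .ofNat 0), (.ofNat 1, .negSucc 0, .negSucc 51650, .ofNat 0), (.ofNat 3, .ofNat 1, .negSucc 7007, .ofNat 0), (.ofNat 1, .ofNat 3, .negSucc 1802, .ofNat 0), (.ofNat 1, .ofNat 1, .negSucc 49718, .ofNat 0), (.ofNat 3, .negSucc 0, .negSucc 5852, .ofNat 0), (.ofNat 1, .negSucc 2, .negSucc 4561, .ofNat 0), (.ofNat 0, .ofNat 4, .ofNat 8871,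 .ofNat 0), (.ofNat 2, .ofNat 0, .ofNat 6954, .ofNat 0), (.ofNat 0, .ofNat 2, .ofNat 83090, .ofNat 0), (.ofNat 6, .ofNat 0, .negSucc 72, .ofNat 0), (.ofNat 5, .ofNat 1, .ofNat 28, .ofNat 0), (.ofNat 5, .negSucc 0, .ofNat 62, .ofNat 0), (.ofNat 4, .ofNat 2, .negSucc 220, .ofNat 0), (.ofNat 4, .negSucc 1, .ofNat 37, .ofNat 0), (.ofNat 3, .negSucc 2, .negSucc 272, .ofNat 0), (.ofNat 3, .ofNat 3, .ofNat 468, .ofNat 0), (.ofNat 2, .ofNat 4, .negSucc 220, .ofNat 0), (.ofNat 2, .negSucc 3, .ofNat 37, .ofNat 0), (.ofNat 1, .ofNat 5, .ofNat 28, .ofNat 0), (.ofNat 1, .negSucc 4, .ofNat 62, .ofNat 0), (.ofNat 0, .ofNat 6, .negSucc 72, .ofNat 0)]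
def U10 : TP := [(.ofNat 1, .ofNat 0, .ofNat 0, .ofNat 17151), (.ofNat 5, .ofNat 0, .ofNat 0, .ofNat 786), (.ofNat 0, .ofNat 1, .ofNat 0, .ofNat 17151), (.ofNat 4, .ofNat 1, .ofNat 0, .negSucc 878), (.ofNat 4, .negSucc 0, .ofNat 0, .ofNat 966), (.ofNat 1, .negSucc 1, .ofNat 0, .ofNat 20717), (.ofNat 3, .ofNat 2, .ofNat 0, .ofNat 1096), (.ofNat 3, .ofNat 0, .ofNat 0, .ofNat 5591), (.ofNat 1, .ofNat 2, .ofNat 0, .negSucc 15958), (.ofNat 3, .negSucc 1, .ofNat 0, .negSucc 3613), (.ofNat 2, .negSucc 2, .ofNat 0, .ofNat 3614), (.ofNat 2, .ofNat 3, .ofNat 0, .ofNat 1096), (.ofNat 2, .negSucc 0, .ofNat 0, .negSucc 20716), (.ofNat 2, .ofNat 1, .ofNat 0, .negSucc 15958), (.ofNat 0, .ofNat 3, .ofNat 0, .ofNat 5591), (.ofNat 1, .ofNat 4, .ofNat 0, .negSucc 878), (.ofNat 1, .negSucc 3, .ofNat 0, .negSucc 965), (.ofNat 0, .ofNat 5, .ofNat 0, .ofNat 786)]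
def U11 : TP := [(.ofNat 0, .ofNat 0, .ofNat 119592, .ofNat 0), (.ofNat 4, .ofNat 0, .ofNat 8871, .ofNat 0), (.ofNat 2, .negSucc 1, .ofNat 2634, .ofNat 0), (.ofNat 2, .ofNat 2, .ofNat 4692, .ofNat 0), (.ofNat 1, .negSucc 0, .negSucc 51650, .ofNat 0), (.ofNat 3, .ofNat 1, .negSucc 1802, .ofNat 0), (.ofNat 1, .ofNat 3, .negSucc 7007, .ofNat 0), (.ofNat 1, .ofNat 1, .negSucc 49718, .ofNat 0), (.ofNat 3, .negSucc 0, .negSucc 4561, .ofNat 0), (.ofNat 1, .negSucc 2, .negSucc 5852, .ofNat 0), (.ofNat 0, .ofNat 4, .ofNat 4625, .ofNat 0), (.ofNat 2, .ofNat 0, .ofNat 83090, .ofNat 0), (.ofNat 0, .ofNat 2, .ofNat 6954, .ofNat 0), (.ofNat 6, .ofNat 0, .negSucc 72, .ofNat 0), (.ofNat 5, .ofNat 1, .ofNat 28, .ofNat 0), (.ofNat 5, .negSucc 0, .ofNat 62, .ofNat 0), (.ofNat 4, .ofNat 2, .negSucc 220, .ofNat 0), (.ofNat 4, .negSucc 1, .ofNat 37, .ofNat 0), (.ofNat 3, .negSucc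 2, .negSucc 272, .ofNat 0), (.ofNat 3, .ofNat 3, .ofNat 468, .ofNat 0), (.ofNat 2, .ofNat 4, .negSucc 220, .ofNat 0), (.ofNat 2, .negSucc 3, .ofNat 37, .ofNat 0), (.ofNat 1, .ofNat 5, .ofNat 28, .ofNat 0), (.ofNat 1, .negSucc 4, .ofNat 62, .ofNat 0), (.ofNat 0, .ofNat 6, .negSucc 72, .ofNat 0)]
def U20 : TP := [(.ofNat 2, .ofNat 0, .ofNat 0, .ofNat 51668), (.ofNat 4, .ofNat 0, .ofNat 0, .negSucc 2865), (.ofNat 1, .ofNat 1, .ofNat 0, .negSucc 47928), (.ofNat 3, .ofNat 1, .ofNat 0, .ofNat 2108), (.ofNat 1, .negSucc 0, .ofNat 0, .negSucc 82760), (.ofNat 3, .negSucc 0, .ofNat 0, .ofNat 2108), (.ofNat 0, .ofNat 2, .ofNat 0, .negSucc 81593), (.ofNat 2, .ofNat 2, .ofNat 0, .ofNat 1864), (.ofNat 0, .ofNat 0, .ofNat 0, .negSucc 341801), (.ofNat 2, .negSucc 1, .ofNat 0, .negSucc 1863), (.ofNat 1, .negSucc 2, .ofNat 0, .ofNat 703), (.ofNat 1, .ofNat 3, .ofNat 0, .ofNat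 4664), (.ofNat 0, .ofNat 4, .ofNat 0, .negSucc 9689)]
def U21 : TP := [(.ofNat 0, .ofNat 1, .negSucc 121577, .ofNat 0), (.ofNat 1, .ofNat 0, .ofNat 377264, .ofNat 0), (.ofNat 3, .ofNat 0, .ofNat 18658, .ofNat 0), (.ofNat 1, .negSucc 1, .ofNat 5212, .ofNat 0), (.ofNat 1, .ofNat 2, .negSucc 4260, .ofNat 0), (.ofNat 2, .ofNat 1, .negSucc 15508, .ofNat 0), (.ofNat 2, .negSucc 0, .negSucc 18735, .ofNat 0), (.ofNat 0, .ofNat 3, .negSucc 8904, .ofNat 0)]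
def U22 : TP := [(.ofNat 2, .ofNat 0, .ofNat 81358, .ofNat 0), (.ofNat 1, .ofNat 1, .negSucc 196971, .ofNat 0), (.ofNat 1, .negSucc 0, .negSucc 72568, .ofNat 0), (.ofNat 0, .ofNat 2, .negSucc 45433, .ofNat 0), (.ofNat 0, .ofNat 0, .ofNat 1021000, .ofNat 0)]
def U30 : TP := [(.ofNat 0, .ofNat 1, .negSucc 1254813, .ofNat 0), (.ofNat 1, .ofNat 0, .ofNat 377264, .ofNat 0), (.ofNat 3, .ofNat 0, .ofNat 18658, .ofNat 0), (.ofNat 1, .negSucc 1, .ofNat 5212, .ofNat 0), (.ofNat 1, .ofNat 2, .negSucc 4260, .ofNat 0), (.ofNat 2, .ofNat 1, .negSucc 15508, .ofNat 0), (.ofNat 2, .negSucc 0, .negSucc 18735, .ofNat 0), (.ofNat 0, .ofNat 3, .negSucc 8904, .ofNat 0)]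
def U31 : TP := [(.ofNat 2, .ofNat 0, .ofNat 0, .ofNat 227276), (.ofNat 4, .ofNat 0, .ofNat 0, .ofNat 2866), (.ofNat 1, .ofNat 1, .ofNat 0, .ofNat 295699), (.ofNat 3, .ofNat 1, .ofNat 0, .negSucc 2107), (.ofNat 1, .negSucc 0, .ofNat 0, .negSucc 395154), (.ofNat 3, .negSucc 0, .ofNat 0, .negSucc 2107), (.ofNat 0, .ofNat 2, .ofNat 0, .negSucc 188896), (.ofNat 2, .ofNat 2, .ofNat 0, .negSucc 1863), (.ofNat 0, .ofNat 0, .ofNat 0, .ofNat 341802), (.ofNat 2, .negSucc 1, .ofNat 0, .ofNat 1864), (.ofNat 1, .negSucc 2, .ofNat 0, .negSucc 702), (.ofNat 1, .ofNat 3, .ofNat 0, .negSucc 4663), (.ofNat 0, .ofNat 4, .ofNat 0, .ofNat 9690)]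
def U32 : TP := [(.ofNat 3, .ofNat 0, .ofNat 0, .ofNat 7893), (.ofNat 2, .ofNat 1, .ofNat 0, .ofNat 5917), (.ofNat 2, .negSucc 0, .ofNat 0, .negSucc 5916), (.ofNat 1, .ofNat 2, .ofNat 0, .ofNat 61859), (.ofNat 1, .ofNat 0, .ofNat 0, .ofNat 394036), (.ofNat 1, .negSucc 1, .ofNat 0, .negSucc 16674), (.ofNat 0, .ofNat 3, .ofNat 0, .negSucc 80053), (.ofNat 0, .ofNat 1, .ofNat 0, .ofNat 1249309)]
def U33 : TP := [(.ofNat 2, .ofNat 0, .negSucc 220829, .ofNat 0), (.ofNat 1, .ofNat 1, .negSucc 1070904, .ofNat 0), (.ofNat 1, .negSucc 0, .ofNat 577439, .ofNat 0), (.ofNat 0, .ofNat 2, .negSucc 1391546, .ofNat 0), (.ofNat 0, .ofNat 0, .ofNat 12153000, .ofNat 0)]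
def U40 : TP := [(.ofNat 3, .negSucc 0, .ofNat 0, .ofNat 703), (.ofNat 3, .ofNat 1, .ofNat 0, .negSucc 4663), (.ofNat 2, .ofNat 0, .ofNat 0, .negSucc 188896), (.ofNat 2, .ofNat 2, .ofNat 0, .negSucc 1863), (.ofNat 2, .negSucc 1, .ofNat 0, .negSucc 1863), (.ofNat 1, .ofNat 1, .ofNat 0, .ofNat 295699), (.ofNat 1, .ofNat 3, .ofNat 0, .negSucc 2107), (.ofNat 1, .negSucc 0, .ofNat 0, .ofNat 395155), (.ofNat 1, .negSucc 2, .ofNat 0, .ofNat 2108), (.ofNat 0, .ofNat 2, .ofNat 0, .ofNat 227276), (.ofNat 0, .ofNat 4, .ofNat 0, .ofNat 2866), (.ofNat 0, .ofNat 0, .ofNat 0, .ofNat 341802), (.ofNat 4, .ofNat 0, .ofNat 0, .ofNat 9690)]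
def U41 : TP := [(.ofNat 0, .ofNat 1, .ofNat 377264, .ofNat 0), (.ofNat 1, .ofNat 0, .negSucc 1254813, .ofNat 0), (.ofNat 2, .negSucc 0, .ofNat 5212, .ofNat 0), (.ofNat 2, .ofNat 1, .negSucc 4260, .ofNat 0), (.ofNat 0, .ofNat 3, .ofNat 18658, .ofNat 0), (.ofNat 3, .ofNat 0, .negSucc 8904, .ofNat 0), (.ofNat 1, .ofNat 2, .negSucc 15508, .ofNat 0), (.ofNat 1, .negSucc 1, .negSucc 18735, .ofNat 0)]
def U42 : TP := [(.ofNat 2, .ofNat 0, .ofNat 25358, .ofNat 0), (.ofNat 0, .ofNat 2, .ofNat 109887, .ofNat 0), (.ofNat 1, .ofNat 1, .ofNat 510054, .ofNat 0), (.ofNat 1, .negSucc 0, .ofNat 13477, .ofNat 0), (.ofNat 0, .ofNat 0, .negSucc 3392999, .ofNat 0)]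
def U43 : TP := [(.ofNat 3, .ofNat 0, .ofNat 0, .ofNat 23678), (.ofNat 2, .ofNat 1, .ofNat 0, .negSucc 10219), (.ofNat 2, .negSucc 0, .ofNat 0, .negSucc 10219), (.ofNat 1, .ofNat 2, .ofNat 0, .negSucc 10219), (.ofNat 1, .ofNat 0, .ofNat 0, .negSucc 3577381), (.ofNat 1, .negSucc 1, .ofNat 0, .ofNat 10220), (.ofNat 0, .ofNat 3, .ofNat 0, .ofNat 23678), (.ofNat 0, .ofNat 1, .ofNat 0, .negSucc 3577381)]
def U44 : TP := [(.ofNat 2, .ofNat 0, .negSucc 1391546, .ofNat 0), (.ofNat 1, .ofNat 1, .negSucc 1070904, .ofNat 0), (.ofNat 1, .negSucc 0, .ofNat 577439, .ofNat 0), (.ofNat 0, .ofNat 2, .negSucc 220829, .ofNat 0), (.ofNat 0, .ofNat 0, .ofNat 12153000, .ofNat 0)]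
def U50 : TP := [(.ofNat 0, .ofNat 1, .ofNat 377264, .ofNat 0), (.ofNat 1, .ofNat 0, .negSucc 121577, .ofNat 0), (.ofNat 2, .negSucc 0, .ofNat 5212, .ofNat 0), (.ofNat 2, .ofNat 1, .negSucc 4260, .ofNat 0), (.ofNat 0, .ofNat 3, .ofNat 18658, .ofNat 0), (.ofNat 3, .ofNat 0, .negSucc 8904, .ofNat 0), (.ofNat 1, .ofNat 2, .negSucc 15508, .ofNat 0), (.ofNat 1, .negSucc 1, .negSucc 18735, .ofNat 0)]
def U51 : TP := [(.ofNat 3, .negSucc 0, .ofNat 0, .negSucc 702), (.ofNat 3, .ofNat 1, .ofNat 0, .ofNat 4664), (.ofNat 2, .ofNat 0, .ofNat 0, .negSucc 81593), (.ofNat 2, .ofNat 2, .ofNat 0, .ofNat 1864), (.ofNat 2, .negSucc 1, .ofNat 0, .ofNat 1864), (.ofNat 1, .ofNat 1, .ofNat 0, .negSucc 47928), (.ofNat 1, .ofNat 3, .ofNat 0, .ofNat 2108), (.ofNat 1, .negSucc 0, .ofNat 0, .ofNat 82761), (.ofNat 1, .negSucc 2, .ofNat 0, .negSucc 2107), (.ofNat 0, .ofNat 2, .ofNat 0,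 .ofNat 51668), (.ofNat 0, .ofNat 4, .ofNat 0, .negSucc 2865), (.ofNat 0, .ofNat 0, .ofNat 0, .negSucc 341801), (.ofNat 4, .ofNat 0, .ofNat 0, .negSucc 9689)]
def U52 : TP := [(.ofNat 3, .ofNat 0, .ofNat 0, .ofNat 23678), (.ofNat 2, .ofNat 1, .ofNat 0, .negSucc 10219), (.ofNat 2, .negSucc 0, .ofNat 0, .negSucc 10219), (.ofNat 1, .ofNat 2, .ofNat 0, .negSucc 10219), (.ofNat 1, .ofNat 0, .ofNat 0, .negSucc 177672), (.ofNat 1, .negSucc 1, .ofNat 0, .ofNat 10220), (.ofNat 0, .ofNat 3, .ofNat 0, .ofNat 23678), (.ofNat 0, .ofNat 1, .ofNat 0, .negSucc 177672)]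
def U53 : TP := [(.ofNat 2, .ofNat 0, .ofNat 109887, .ofNat 0), (.ofNat 1, .ofNat 1, .ofNat 510054, .ofNat 0), (.ofNat 1, .negSucc 0, .ofNat 13477, .ofNat 0), (.ofNat 0, .ofNat 2, .ofNat 25358, .ofNat 0), (.ofNat 0, .ofNat 0, .negSucc 3392999, .ofNat 0)]
def U54 : TP := [(.ofNat 3, .ofNat 0, .ofNat 0, .negSucc 80053), (.ofNat 2, .ofNat 1, .ofNat 0, .ofNat 61859), (.ofNat 2, .negSucc 0, .ofNat 0, .ofNat 16675), (.ofNat 1, .ofNat 2, .ofNat 0, .ofNat 5917), (.ofNat 1, .ofNat 0, .ofNat 0, .ofNat 1249309), (.ofNat 1, .negSucc 1, .ofNat 0, .ofNat 5917), (.ofNat 0, .ofNat 3, .ofNat 0, .ofNat 7893), (.ofNat 0, .ofNat 1, .ofNat 0, .ofNat 394036)]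
def U55 : TP := [(.ofNat 2, .ofNat 0, .negSucc 45433, .ofNat 0), (.ofNat 1, .ofNat 1, .negSucc 196971, .ofNat 0), (.ofNat 1, .negSucc 0, .negSucc 72568, .ofNat 0), (.ofNat 0, .ofNat 2, .ofNat 81358, .ofNat 0), (.ofNat 0, .ofNat 0, .ofNat 1021000, .ofNat 0)]

/-- `10 ^ 6 cos (pi n / 12)`, rounded -/
def ctab : List ℤ := [1000000, 965926, 866025, 707107, 500000, 258819, 0, -258819, -500000,
  -707107, -866025, -965926, -1000000, -965926, -866025, -707107, -500000, -258819, 0, 258819,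
  500000, 707107, 866025, 965926]

def ct (n : ℕ) : ℤ := ctab.getD n 0

/-- index of the angle `k th p + l th q` -/
def nodeI (k l : ℤ) (p q : ℕ) : ℕ := ((k * p + l * q) % 24).toNat

/-- rounded node value, times `10 ^ 13` -/
def nv (p q : ℕ) : TP → ℤ
  | [] => 0
  | t :: f => t.2.2.1 * ct (nodeI t.1 t.2.1 p q) + t.2.2.2 * ct ((nodeI t.1 t.2.1 p q + 18) % 24)
      + nv p q f

/-- closeness of exact and rounded coefficients -/
def close (D : ℤ) : TP → TP → Bool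
  | [], [] => true
  | t :: f, s :: g =>
      (decide (t.1 = s.1) && decide (t.2.1 = s.2.1) && decide (t.1.natAbs ≤ 6) &&
        decide (t.2.1.natAbs ≤ 6) &&
        decide ((2 * (t.2.2.1 * 1128960000000 - s.2.2.1 * (rt t.1 * rt t.2.1 * D))).natAbs
          ≤ (rt t.1 * rt t.2.1 * D).natAbs) &&
        decide ((2 * (t.2.2.2 * 1128960000000 - s.2.2.2 * (rt t.1 * rt t.2.1 * D))).natAbs
          ≤ (rt t.1 * rt t.2.1 * D).natAbs)) && close D f g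
  | _, _ => false

/-- error bound, times `10 ^ 13` -/
def ebd : TP → ℕ
  | [] => 0
  | s :: g => (1000000 + s.2.2.1.natAbs + s.2.2.2.natAbs) + ebd g

def chk1 (a : ℤ) : Bool := decide (0 ≤ a)
def chk2 (a b c : ℤ) : Bool := decide (0 < a) && chk1 (a * c - b * b)
def chk3 (a00 a01 a02 a11 a12 a22 : ℤ) : Bool :=
  decide (0 < a00) && chk2 (a00 * a11 - a01 * a01) (a00 * a12 - a01 * a02) (a00 * a22 - a02 * a02)
def chk4 (a00 a01 a02 a03 a11 a12 a13 a22 a23 a33 : ℤ) : Bool :=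
  decide (0 < a00) && chk3 (a00 * a11 - a01 * a01) (a00 * a12 - a01 * a02) (a00 * a13 - a01 * a03)
    (a00 * a22 - a02 * a02) (a00 * a23 - a02 * a03) (a00 * a33 - a03 * a03)
def chk5 (a00 a01 a02 a03 a04 a11 a12 a13 a14 a22 a23 a24 a33 a34 a44 : ℤ) : Bool :=
  decide (0 < a00) && chk4 (a00 * a11 - a01 * a01) (a00 * a12 - a01 * a02) (a00 * a13 - a01 * a03)
    (a00 * a14 - a01 * a04) (a00 * a22 - a02 * a02) (a00 * a23 - a02 * a03) (a00 * a24 - a02 * a04)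
    (a00 * a33 - a03 * a03) (a00 * a34 - a03 * a04) (a00 * a44 - a04 * a04)
def chk6 (a00 a01 a02 a03 a04 a05 a11 a12 a13 a14 a15 a22 a23 a24 a25 a33 a34 a35 a44 a45 a55 : ℤ) :
    Bool :=
  decide (0 < a00) && chk5 (a00 * a11 - a01 * a01) (a00 * a12 - a01 * a02) (a00 * a13 - a01 * a03)
    (a00 * a14 - a01 * a04) (a00 * a15 - a01 * a05) (a00 * a22 - a02 * a02) (a00 * a23 - a02 * a03)
    (a00 * a24 - a02 * a04) (a00 * a25 - a02 * a05) (a00 * a33 - a03 * a03) (a00 * a34 - a03 * a04)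
    (a00 * a35 - a03 * a05) (a00 * a44 - a04 * a04) (a00 * a45 - a04 * a05) (a00 * a55 - a05 * a05)

/-- the check at a node -/
def chkN (p q : ℕ) : Bool :=
  chk6 (nv p q U00 - 10400000000) (nv p q U10) (nv p q U20) (nv p q U30) (nv p q U40) (nv p q U50)
    (nv p q U11 - 10400000000) (nv p q U21) (nv p q U31) (nv p q U41) (nv p q U51)
    (nv p q U22 - 10400000000) (nv p q U32) (nv p q U42) (nv p q U52)
    (nv p q U33 - 10400000000) (nv p q U43) (nv p q U53)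
    (nv p q U44 - 10400000000) (nv p q U54) (nv p q U55 - 10400000000)

def chkRow (p : ℕ) : Bool := (List.range 24).all fun q => chkN p q

end Pool.Agent.helper86.TorCert
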