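import Pool.Agent.helper86.TorCert.Alg

set_option autoImplicit false

/-!
The 21 entries of the form as explicit trigonometric polynomials (for MP_d63641_gt).
-/

namespace Pool.Agent.helper86.TorCert

open Pool.Agent.helper65.Tor

def sub (f g : TP) : TP := add f (sm (-1) g)

lemma evI_sub (f g : TP) (x y : ℝ) : evI (sub f g) x y = evI f x y - evI g x y := by
  rw [sub, evI_add, evI_sm]; push_cast; ring

def cOm : TP := sub (dX dA2) (dY dA1)
def cO1 : TP := sub (dX (dX dA2)) (dY (dX dA1))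
def cO2 : TP := sub (dY (dX dA2)) (dY (dY dA1))
-- denominators 20000^2
def cS2r : TP := sub (sm 20000 (dY dSr)) (mul dA2 dSi)
def cS2i : TP := add (sm 20000 (dY dSi)) (mul dA2 dSr)
def cK1r : TP := sub (sm 20000 (dX dKr)) (mul dA1 dKi)
def cK1i : TP := add (sm 20000 (dX dKi)) (mul dA1 dKr)
def cT1r : TP := sub (sm 20000 (dX dTr)) (mul dA1 dTi)
def cT1i : TP := add (sm 20000 (dX dTi)) (mul dA1 dTr)
def cK2r : TP := sub (sm 20000 (dY dKr)) (mul dA2 dKi)
def cK2i : TP := add (sm 20000 (dY dKi)) (mul dA2 dKr)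
-- denominators 20000^3
def cS22r : TP := sub (sub (sub (sm 400000000 (dY (dY dSr))) (sm 40000 (mul dA2 (dY dSi))))
  (sm 20000 (mul (dY dA2) dSi))) (mul dA2 (mul dA2 dSr))
def cS22i : TP := sub (add (add (sm 400000000 (dY (dY dSi))) (sm 40000 (mul dA2 (dY dSr))))
  (sm 20000 (mul (dY dA2) dSr))) (mul dA2 (mul dA2 dSi))
def cT11r : TP := sub (sub (sub (sm 400000000 (dX (dX dTr))) (sm 40000 (mul dA1 (dX dTi))))
  (sm 20000 (mul (dX dA1) dTi))) (mul dA1 (mul dA1 dTr))
def cT11i : TP := sub (add (add (sm 400000000 (dX (dX dTi))) (sm 40000 (mul dA1 (dX dTr))))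
  (sm 20000 (mul (dX dA1) dTr))) (mul dA1 (mul dA1 dTi))
def cK12r : TP := sub (sub (sub (sm 400000000 (dY (dX dKr)))
  (sm 20000 (add (mul dA2 (dX dKi)) (mul dA1 (dY dKi)))))
  (sm 10000 (mul (add (dX dA2) (dY dA1)) dKi))) (mul dA1 (mul dA2 dKr))
def cK12i : TP := sub (add (add (sm 400000000 (dY (dX dKi)))
  (sm 20000 (add (mul dA2 (dX dKr)) (mul dA1 (dY dKr)))))
  (sm 10000 (mul (add (dX dA2) (dY dA1)) dKr))) (mul dA1 (mul dA2 dKi))
-- denominator 8 * 20000 ^ 2
def cVV0 : TP := add (sub (add (sm (-3) (mul cOm cOm))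
    (sm 80000 (sub (add (dY (dY dS0)) (dX (dX dT0))) (sm 2 (dY (dX dK0))))))
    (sm 4 (add (add (mul dS0 dT0) (mul dSr dTr)) (mul dSi dTi))))
    (sm 4 (add (add (mul dK0 dK0) (mul dKr dKr)) (mul dKi dKi)))
-- denominator 2 * 20000 ^ 3
def cVVr : TP := add (sub (sub (add cS22r cT11r) (sm 2 cK12r))
    (sm 20000 (add (mul dS0 dTr) (mul dT0 dSr)))) (sm 40000 (mul dK0 dKr))
def cVVi : TP := add (sub (sub (add cS22i cT11i) (sm 2 cK12i))
    (sm 20000 (add (mul dS0 dTi) (mul dT0 dSi)))) (sm 40000 (mul dK0 dKi))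

def C00 : TP := add (sm 20000 cVV0) (sm 4 cVVr)
def C10 : TP := cVVi
def C11 : TP := sub (sm 20000 cVV0) (sm 4 cVVr)
def C20 : TP := add (sm 20000 (sub (dX dT0) (dY dK0))) (sub cT1r cK2r)
def C21 : TP := sub (sm 2 (sub cT1i cK2i)) (sm 20000 cO2)
def C30 : TP := add (sm 2 (sub cT1i cK2i)) (sm 20000 cO2)
def C31 : TP := sub (sm 20000 (sub (dX dT0) (dY dK0))) (sub cT1r cK2r)
def C22 : TP := add dT0 dTr
def C32 : TP := dTi
def C33 : TP := sub dT0 dTr
def C40 : TP := add (sm 20000 (sub (dY dS0) (dX dK0))) (sub cS2r cK1r)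
def C41 : TP := add (sm 2 (sub cS2i cK1i)) (sm 20000 cO1)
def C50 : TP := sub (sm 2 (sub cS2i cK1i)) (sm 20000 cO1)
def C51 : TP := sub (sm 20000 (sub (dY dS0) (dX dK0))) (sub cS2r cK1r)
def C42 : TP := sm (-1) (add dK0 dKr)
def C43 : TP := sub (sm 3 cOm) (sm 2 dKi)
def C52 : TP := sub (sm (-3) cOm) (sm 2 dKi)
def C53 : TP := sub dKr dK0
def C44 : TP := add dS0 dSr
def C54 : TP := dSi
def C55 : TP := sub dS0 dSr

section

variable (x y : ℝ)

lemma P00_eq : (djets x y).P00 = evI C00 x y / 64000000000000 := by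
  simp only [Jets.P00, Jets.VV0, Jets.VVr, Jets.Om, Jets.S22r, Jets.T11r, Jets.K12r, djets, jet,
    ev_eq, C00, cVV0, cVVr, cS22r, cT11r, cK12r, cOm, evI_add, evI_sub, evI_sm, evI_mul]
  push_cast; ring

lemma P11_eq : (djets x y).P11 = evI C11 x y / 64000000000000 := by
  simp only [Jets.P11, Jets.VV0, Jets.VVr, Jets.Om, Jets.S22r, Jets.T11r, Jets.K12r, djets, jet,
    ev_eq, C11, cVV0, cVVr, cS22r, cT11r, cK12r, cOm, evI_add, evI_sub, evI_sm, evI_mul]
  push_cast; ring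

lemma P10_eq : (djets x y).P10 = evI C10 x y / 16000000000000 := by
  simp only [Jets.P10, Jets.VVi, Jets.S22i, Jets.T11i, Jets.K12i, djets, jet,
    ev_eq, C10, cVVi, cS22i, cT11i, cK12i, evI_add, evI_sub, evI_sm, evI_mul]
  push_cast; ring

lemma P20_eq : (djets x y).P20 = evI C20 x y / 400000000 := by
  simp only [Jets.P20, Jets.T1r, Jets.K2r, djets, jet,
    ev_eq, C20, cT1r, cK2r, evI_add, evI_sub, evI_sm, evI_mul]
  push_cast; ring

lemma P31_eq : (djets x y).P31 = evI C31 x y / 400000000 := by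
  simp only [Jets.P31, Jets.T1r, Jets.K2r, djets, jet,
    ev_eq, C31, cT1r, cK2r, evI_sub, evI_sm, evI_mul]
  push_cast; ring

lemma P21_eq : (djets x y).P21 = evI C21 x y / 800000000 := by
  simp only [Jets.P21, Jets.T1i, Jets.K2i, Jets.O2, djets, jet,
    ev_eq, C21, cT1i, cK2i, cO2, evI_add, evI_sub, evI_sm, evI_mul]
  push_cast; ring

lemma P30_eq : (djets x y).P30 = evI C30 x y / 800000000 := by
  simp only [Jets.P30, Jets.T1i, Jets.K2i, Jets.O2, djets, jet,
    ev_eq, C30, cT1i, cK2i, cO2, evI_add, evI_sub, evI_sm, evI_mul]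
  push_cast; ring

lemma P40_eq : (djets x y).P40 = evI C40 x y / 400000000 := by
  simp only [Jets.P40, Jets.S2r, Jets.K1r, djets, jet,
    ev_eq, C40, cS2r, cK1r, evI_add, evI_sub, evI_sm, evI_mul]
  push_cast; ring

lemma P51_eq : (djets x y).P51 = evI C51 x y / 400000000 := by
  simp only [Jets.P51, Jets.S2r, Jets.K1r, djets, jet,
    ev_eq, C51, cS2r, cK1r, evI_sub, evI_sm, evI_mul]
  push_cast; ring

lemma P41_eq : (djets x y).P41 = evI C41 x y / 800000000 := by
  simp only [Jets.P41, Jets.S2i, Jets.K1i, Jets.O1, djets, jet,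
    ev_eq, C41, cS2i, cK1i, cO1, evI_add, evI_sub, evI_sm, evI_mul]
  push_cast; ring

lemma P50_eq : (djets x y).P50 = evI C50 x y / 800000000 := by
  simp only [Jets.P50, Jets.S2i, Jets.K1i, Jets.O1, djets, jet,
    ev_eq, C50, cS2i, cK1i, cO1, evI_add, evI_sub, evI_sm, evI_mul]
  push_cast; ring

lemma P22_eq : (djets x y).P22 = evI C22 x y / 20000 := by
  simp only [Jets.P22, djets, jet, ev_eq, C22, evI_add]
  ring

lemma P33_eq : (djets x y).P33 = evI C33 x y / 20000 := by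
  simp only [Jets.P33, djets, jet, ev_eq, C33, evI_sub]
  ring

lemma P44_eq : (djets x y).P44 = evI C44 x y / 20000 := by
  simp only [Jets.P44, djets, jet, ev_eq, C44, evI_add]
  ring

lemma P55_eq : (djets x y).P55 = evI C55 x y / 20000 := by
  simp only [Jets.P55, djets, jet, ev_eq, C55, evI_sub]
  ring

lemma P32_eq : (djets x y).P32 = evI C32 x y / 20000 := by
  simp only [Jets.P32, djets, jet, ev_eq, C32]

lemma P54_eq : (djets x y).P54 = evI C54 x y / 20000 := by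
  simp only [Jets.P54, djets, jet, ev_eq, C54]

lemma P42_eq : (djets x y).P42 = evI C42 x y / 20000 := by
  simp only [Jets.P42, djets, jet, ev_eq, C42, evI_add, evI_sm]
  push_cast; ring

lemma P53_eq : (djets x y).P53 = evI C53 x y / 20000 := by
  simp only [Jets.P53, djets, jet, ev_eq, C53, evI_sub]
  ring

lemma P43_eq : (djets x y).P43 = evI C43 x y / 40000 := by
  simp only [Jets.P43, Jets.Om, djets, jet, ev_eq, C43, cOm, evI_sub, evI_sm]
  push_cast; ring

lemma P52_eq : (djets x y).P52 = evI C52 x y / 40000 := by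
  simp only [Jets.P52, Jets.Om, djets, jet, ev_eq, C52, cOm, evI_sub, evI_sm]
  push_cast; ring

end

end Pool.Agent.helper86.TorCert
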