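import Pool.Agent.helper86.TorCert.Data

set_option autoImplicit false

/-!
Error analysis and interpolation for the rounded node values (for MP_d63641_gt).
-/

namespace Pool.Agent.helper86.TorCert

open Pool.Agent.helper65.Tor Finset

/-! ### the cosine table -/

lemma sqrt2_bd : |√(2:ℝ) - 1.414213562| ≤ 1 / 10 ^ 9 := by
  rw [abs_le]
  constructor
  · have : (1.414213562 - 1 / 10 ^ 9 : ℝ) ≤ √2 := by
      apply Real.le_sqrt_of_sq_le; norm_num
    linarith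
  · have : √2 ≤ (1.414213562 + 1 / 10 ^ 9 : ℝ) := by
      rw [Real.sqrt_le_left (by norm_num)]; norm_num
    linarith

lemma sqrt3_bd : |√(3:ℝ) - 1.732050808| ≤ 1 / 10 ^ 9 := by
  rw [abs_le]
  constructor
  · have : (1.732050808 - 1 / 10 ^ 9 : ℝ) ≤ √3 := by
      apply Real.le_sqrt_of_sq_le; norm_num
    linarith
  · have : √3 ≤ (1.732050808 + 1 / 10 ^ 9 : ℝ) := by
      rw [Real.sqrt_le_left (by norm_num)]; norm_num
    linarith

lemma sqrt6_bd : |√(2:ℝ) * √3 - 2.449489743| ≤ 1 / 10 ^ 8 := by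
  have h2 := abs_le.mp sqrt2_bd
  have h3 := abs_le.mp sqrt3_bd
  rw [abs_le]
  constructor <;> nlinarith [h2.1, h2.2, h3.1, h3.2, Real.sqrt_nonneg (2:ℝ), Real.sqrt_nonneg (3:ℝ)]

lemma cos_12 : Real.cos (Real.pi / 12) = (√2 * √3 + √2) / 4 := by
  have : Real.pi / 12 = Real.pi / 3 - Real.pi / 4 := by ring
  rw [this, Real.cos_sub, Real.cos_pi_div_three, Real.cos_pi_div_four, Real.sin_pi_div_three,
    Real.sin_pi_div_four]
  ring

lemma cos_5_12 : Real.cos (Real.pi * 5 / 12) = (√2 * √3 - √2) / 4 := by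
  have : Real.pi * 5 / 12 = Real.pi / 6 + Real.pi / 4 := by ring
  rw [this, Real.cos_add, Real.cos_pi_div_six, Real.cos_pi_div_four, Real.sin_pi_div_six,
    Real.sin_pi_div_four]
  ring

/-- first quadrant -/
lemma ct_q (n : ℕ) (hn : n ≤ 6) : |Real.cos (Real.pi * n / 12) - (ct n : ℝ) / 10 ^ 6| ≤ 1 / 10 ^ 6 := by
  have h2 := abs_le.mp sqrt2_bd
  have h3 := abs_le.mp sqrt3_bd
  have h6 := abs_le.mp sqrt6_bd
  interval_cases n
  · simp only [ct, ctab, List.getD_cons_zero]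
    norm_num
  · have : Real.pi * ((1:ℕ):ℝ) / 12 = Real.pi / 12 := by push_cast; ring
    rw [this, cos_12]
    simp only [ct, ctab, List.getD_cons_succ, List.getD_cons_zero]
    rw [abs_le]; constructor <;> push_cast <;> linarith [h2.1, h2.2, h6.1, h6.2]
  · have : Real.pi * ((2:ℕ):ℝ) / 12 = Real.pi / 6 := by push_cast; ring
    rw [this, Real.cos_pi_div_six]
    simp only [ct, ctab, List.getD_cons_succ, List.getD_cons_zero]
    rw [abs_le]; constructor <;> push_cast <;> linarith [h3.1, h3.2]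
  · have : Real.pi * ((3:ℕ):ℝ) / 12 = Real.pi / 4 := by push_cast; ring
    rw [this, Real.cos_pi_div_four]
    simp only [ct, ctab, List.getD_cons_succ, List.getD_cons_zero]
    rw [abs_le]; constructor <;> push_cast <;> linarith [h2.1, h2.2]
  · have : Real.pi * ((4:ℕ):ℝ) / 12 = Real.pi / 3 := by push_cast; ring
    rw [this, Real.cos_pi_div_three]
    simp only [ct, ctab, List.getD_cons_succ, List.getD_cons_zero]
    rw [abs_le]; constructor <;> norm_num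
  · have : Real.pi * ((5:ℕ):ℝ) / 12 = Real.pi * 5 / 12 := by push_cast; ring
    rw [this, cos_5_12]
    simp only [ct, ctab, List.getD_cons_succ, List.getD_cons_zero]
    rw [abs_le]; constructor <;> push_cast <;> linarith [h2.1, h2.2, h6.1, h6.2]
  · have : Real.pi * ((6:ℕ):ℝ) / 12 = Real.pi / 2 := by push_cast; ring
    rw [this, Real.cos_pi_div_two]
    simp [ct, ctab]

lemma ct_half (n : ℕ) (hn : n ≤ 12) :
    |Real.cos (Real.pi * n / 12) - (ct n : ℝ) / 10 ^ 6| ≤ 1 / 10 ^ 6 := by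
  by_cases h : n ≤ 6
  · exact ct_q n h
  · have h1 := ct_q (12 - n) (by omega)
    have h2 : Real.cos (Real.pi * n / 12) = - Real.cos (Real.pi * ((12 - n : ℕ) : ℝ) / 12) := by
      rw [← Real.cos_pi_sub]
      congr 1
      rw [Nat.cast_sub hn]
      push_cast; ring
    have h3 : ct n = - ct (12 - n) := by
      interval_cases n <;> first | omega | rfl
    rw [h2, h3]
    have : - Real.cos (Real.pi * ((12 - n : ℕ) : ℝ) / 12) - ((-ct (12 - n) : ℤ) : ℝ) / 10 ^ 6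
        = -(Real.cos (Real.pi * ((12 - n : ℕ) : ℝ) / 12) - (ct (12 - n) : ℝ) / 10 ^ 6) := by
      push_cast; ring
    rw [this, abs_neg]
    exact h1

lemma ct_full (n : ℕ) (hn : n < 24) :
    |Real.cos (Real.pi * n / 12) - (ct n : ℝ) / 10 ^ 6| ≤ 1 / 10 ^ 6 := by
  by_cases h : n ≤ 12
  · exact ct_half n h
  · have h1 := ct_half (24 - n) (by omega)
    have h2 : Real.cos (Real.pi * n / 12) = Real.cos (Real.pi * ((24 - n : ℕ) : ℝ) / 12) := by
      rw [← Real.cos_two_pi_sub]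
      congr 1
      rw [Nat.cast_sub hn.le]
      push_cast; ring
    have h3 : ct n = ct (24 - n) := by
      interval_cases n <;> first | omega | rfl
    rw [h2, h3]
    exact h1

lemma ct_int (j : ℤ) :
    |Real.cos (Real.pi * j / 12) - (ct (j % 24).toNat : ℝ) / 10 ^ 6| ≤ 1 / 10 ^ 6 := by
  have h0 : 0 ≤ j % 24 := Int.emod_nonneg _ (by norm_num)
  have h24 : j % 24 < 24 := Int.emod_lt_of_pos _ (by norm_num)
  have h1 := ct_full (j % 24).toNat (by omega)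
  have h2 : Real.cos (Real.pi * j / 12) = Real.cos (Real.pi * ((j % 24).toNat : ℝ) / 12) := by
    have h3 : (((j % 24).toNat : ℕ) : ℝ) = ((j % 24 : ℤ) : ℝ) := by
      have : (((j % 24).toNat : ℕ) : ℤ) = j % 24 := Int.toNat_of_nonneg h0
      exact_mod_cast congrArg (fun z : ℤ => (z : ℝ)) this
    rw [h3]
    have h4 : (j : ℝ) = ((j % 24 : ℤ) : ℝ) + 24 * ((j / 24 : ℤ) : ℝ) := by
      have : j = j % 24 + 24 * (j / 24) := (Int.emod_add_mul_ediv j 24).symm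
      exact_mod_cast congrArg (fun z : ℤ => (z : ℝ)) this
    have h5 : Real.pi * j / 12 = Real.pi * ((j % 24 : ℤ) : ℝ) / 12 + ((j / 24 : ℤ) : ℝ) * (2 * Real.pi) := by
      rw [h4]; ring
    rw [h5, Real.cos_add_int_mul_two_pi]
  rw [h2]; exact h1

lemma cos_node (k l : ℤ) (p q : ℕ) :
    |Real.cos (k * th p + l * th q) - (ct (nodeI k l p q) : ℝ) / 10 ^ 6| ≤ 1 / 10 ^ 6 := by
  have h := ct_int (k * p + l * q)
  have : (k : ℝ) * th p + l * th q = Real.pi * ((k * p + l * q : ℤ) : ℝ) / 12 := by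
    unfold th; push_cast; ring
  rw [this]; exact h

lemma sin_node (k l : ℤ) (p q : ℕ) :
    |Real.sin (k * th p + l * th q) - (ct ((nodeI k l p q + 18) % 24) : ℝ) / 10 ^ 6| ≤ 1 / 10 ^ 6 := by
  have h := ct_int (k * p + l * q + 18)
  have h1 : Real.sin ((k : ℝ) * th p + l * th q)
      = Real.cos (Real.pi * ((k * p + l * q + 18 : ℤ) : ℝ) / 12) := by
    have h2 : Real.pi * ((k * p + l * q + 18 : ℤ) : ℝ) / 12
        = ((k : ℝ) * th p + l * th q) - Real.pi / 2 + 2 * Real.pi := by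
      unfold th; push_cast; ring
    rw [h2, Real.cos_add_two_pi, Real.cos_sub_pi_div_two]
  have h3 : (nodeI k l p q + 18) % 24 = ((k * p + l * q + 18) % 24 : ℤ).toNat := by
    unfold nodeI
    omega
  rw [h1, h3]; exact h

/-! ### interpolation -/

/-- modified modes at the nodes -/
noncomputable def G1 (p q : ℕ) (k l : ℤ) : ℝ :=
  112896 / ((rt k : ℝ) * rt l) * Real.cos (k * th p + l * th q)

noncomputable def G2 (p q : ℕ) (k l : ℤ) : ℝ :=
  112896 / ((rt k : ℝ) * rt l) * Real.sin (k * th p + l * th q)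

lemma interp (f : TP) (hf : ∀ t ∈ f, |t.1| ≤ 6 ∧ |t.2.1| ≤ 6) (x y : ℝ) :
    evI f x y = ∑ p ∈ range 24, ∑ q ∈ range 24, (W (x - th p) * W (y - th q)) *
      lin (G1 p q) (G2 p q) f := by
  induction f with
  | nil => simp [evI]
  | cons t f ih =>
    have hf' : ∀ s ∈ f, |s.1| ≤ 6 ∧ |s.2.1| ≤ 6 := fun s hs => hf s (List.mem_cons_of_mem _ hs)
    obtain ⟨ha, hb⟩ := hf t List.mem_cons_self
    rw [evI_cons, ih hf']
    have hc := kern_cos t.1 t.2.1 ha hb x y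
    have hs := kern_sin t.1 t.2.1 ha hb x y
    rw [rk_eq _ ha, rk_eq _ hb] at hc hs
    have p1 : (rt t.1 : ℝ) ≠ 0 := by exact_mod_cast (rt_pos t.1).ne'
    have p2 : (rt t.2.1 : ℝ) ≠ 0 := by exact_mod_cast (rt_pos t.2.1).ne'
    have e1 : Real.cos (t.1 * x + t.2.1 * y) = 112896 / ((rt t.1 : ℝ) * rt t.2.1) *
        ∑ p ∈ range 24, ∑ q ∈ range 24, (W (x - th p) * W (y - th q)) *
        Real.cos (t.1 * th p + t.2.1 * th q) := by
      rw [hc]; field_simp; norm_num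
    have e2 : Real.sin (t.1 * x + t.2.1 * y) = 112896 / ((rt t.1 : ℝ) * rt t.2.1) *
        ∑ p ∈ range 24, ∑ q ∈ range 24, (W (x - th p) * W (y - th q)) *
        Real.sin (t.1 * th p + t.2.1 * th q) := by
      rw [hs]; field_simp; norm_num
    rw [e1, e2]
    simp only [lin_cons, mul_add, sum_add_distrib, mul_sum]
    congr 1
    congr 1
    · refine sum_congr rfl fun p _ => sum_congr rfl fun q _ => ?_
      simp only [G1]; ring
    · refine sum_congr rfl fun p _ => sum_congr rfl fun q _ => ?_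
      simp only [G2]; ring

/-! ### closeness -/

lemma term_bd (A u c c' : ℝ) (h1 : |A - u / 10 ^ 7| ≤ 1 / (2 * 10 ^ 7)) (hc : |c| ≤ 1)
    (h2 : |c - c' / 10 ^ 6| ≤ 1 / 10 ^ 6) :
    |A * c - u * c' / 10 ^ 13| ≤ (500000 + |u|) / 10 ^ 13 := by
  have e : A * c - u * c' / 10 ^ 13 = (A - u / 10 ^ 7) * c + u / 10 ^ 7 * (c - c' / 10 ^ 6) := by
    ring
  rw [e]
  have a1 : |(A - u / 10 ^ 7) * c| ≤ 1 / (2 * 10 ^ 7) := by
    rw [abs_mul]
    calc |A - u / 10 ^ 7| * |c| ≤ 1 / (2 * 10 ^ 7) * 1 :=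
          mul_le_mul h1 hc (abs_nonneg _) (by positivity)
      _ = _ := by ring
  have a2 : |u / 10 ^ 7 * (c - c' / 10 ^ 6)| ≤ |u| / 10 ^ 13 := by
    rw [abs_mul, abs_div]
    have : |(10 : ℝ) ^ 7| = 10 ^ 7 := abs_of_pos (by positivity)
    rw [this]
    calc |u| / 10 ^ 7 * |c - c' / 10 ^ 6| ≤ |u| / 10 ^ 7 * (1 / 10 ^ 6) :=
          mul_le_mul_of_nonneg_left h2 (by positivity)
      _ = _ := by ring
  calc _ ≤ |(A - u / 10 ^ 7) * c| + |u / 10 ^ 7 * (c - c' / 10 ^ 6)| := abs_add_le _ _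
    _ ≤ 1 / (2 * 10 ^ 7) + |u| / 10 ^ 13 := add_le_add a1 a2
    _ = _ := by ring

lemma coef_bd (a u : ℤ) (R : ℤ) (hR : 0 < R)
    (h : (2 * (a * 1128960000000 - u * R)).natAbs ≤ R.natAbs) :
    |(a : ℝ) * 112896 / R - u / 10 ^ 7| ≤ 1 / (2 * 10 ^ 7) := by
  have h1 : |2 * (a * 1128960000000 - u * R)| ≤ |R| := by
    rw [Int.abs_eq_natAbs, Int.abs_eq_natAbs]; exact_mod_cast h
  rw [abs_of_pos hR] at h1
  have h2 : |2 * ((a : ℝ) * 1128960000000 - u * R)| ≤ (R : ℝ) := by exact_mod_cast h1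
  have hR' : (0 : ℝ) < R := by exact_mod_cast hR
  have e : (a : ℝ) * 112896 / R - u / 10 ^ 7
      = (2 * ((a : ℝ) * 1128960000000 - u * R)) / (2 * 10 ^ 7 * R) := by
    field_simp; ring
  rw [e, abs_div, abs_of_pos (by positivity : (0 : ℝ) < 2 * 10 ^ 7 * R),
    div_le_div_iff₀ (by positivity) (by positivity)]
  nlinarith

lemma close_bd (D : ℤ) (hD : 0 < D) (p q : ℕ) : ∀ f U : TP, close D f U = true →
    (∀ t ∈ f, |t.1| ≤ 6 ∧ |t.2.1| ≤ 6) ∧
    |lin (G1 p q) (G2 p q) f / D - (nv p q U : ℝ) / 10 ^ 13| ≤ (ebd U : ℝ) / 10 ^ 13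
  | [], [], _ => by simp [nv, ebd]
  | [], s :: g, h => by simp [close] at h
  | t :: f, [], h => by simp [close] at h
  | t :: f, s :: g, h => by
    rw [close] at h
    simp only [Bool.and_eq_true, decide_eq_true_eq] at h
    obtain ⟨⟨⟨⟨⟨⟨h1, h2⟩, h3⟩, h4⟩, h5⟩, h6⟩, h7⟩ := h
    obtain ⟨ih1, ih2⟩ := close_bd D hD p q f g h7
    constructor
    · intro r hr
      rcases List.mem_cons.mp hr with rfl | hr
      · constructor
        · rw [Int.abs_eq_natAbs]; exact_mod_cast h3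
        · rw [Int.abs_eq_natAbs]; exact_mod_cast h4
      · exact ih1 r hr
    · have hR : 0 < rt t.1 * rt t.2.1 * D := by
        have := rt_pos t.1; have := rt_pos t.2.1; positivity
      have c5 := coef_bd _ _ _ hR h5
      have c6 := coef_bd _ _ _ hR h6
      have t5 := term_bd _ _ _ _ c5 (Real.abs_cos_le_one _) (cos_node t.1 t.2.1 p q)
      have t6 := term_bd _ _ _ _ c6 (Real.abs_sin_le_one _) (sin_node t.1 t.2.1 p q)
      rw [lin_cons, nv, ebd, ← h1, ← h2]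
      have p1 : (rt t.1 : ℝ) ≠ 0 := by exact_mod_cast (rt_pos t.1).ne'
      have p2 : (rt t.2.1 : ℝ) ≠ 0 := by exact_mod_cast (rt_pos t.2.1).ne'
      have pD : (D : ℝ) ≠ 0 := by exact_mod_cast hD.ne'
      have e : ((t.2.2.1 : ℝ) * G1 p q t.1 t.2.1 + (t.2.2.2 : ℝ) * G2 p q t.1 t.2.1 +
            lin (G1 p q) (G2 p q) f) / D -
          ((s.2.2.1 * ct (nodeI t.1 t.2.1 p q) + s.2.2.2 * ct ((nodeI t.1 t.2.1 p q + 18) % 24)
            + nv p q g : ℤ) : ℝ) / 10 ^ 13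
          = ((t.2.2.1 : ℝ) * 112896 / ((rt t.1 * rt t.2.1 * D : ℤ) : ℝ) *
              Real.cos (t.1 * th p + t.2.1 * th q) -
              (s.2.2.1 : ℝ) * (ct (nodeI t.1 t.2.1 p q) : ℝ) / 10 ^ 13)
          + ((t.2.2.2 : ℝ) * 112896 / ((rt t.1 * rt t.2.1 * D : ℤ) : ℝ) *
              Real.sin (t.1 * th p + t.2.1 * th q) -
              (s.2.2.2 : ℝ) * (ct ((nodeI t.1 t.2.1 p q + 18) % 24) : ℝ) / 10 ^ 13)
          + (lin (G1 p q) (G2 p q) f / D - (nv p q g : ℝ) / 10 ^ 13) := by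
        simp only [G1, G2]
        push_cast
        field_simp
        ring
      rw [e]
      have a1 : |(s.2.2.1 : ℝ)| = (s.2.2.1.natAbs : ℝ) := by
        rw [← Int.cast_abs, Int.abs_eq_natAbs]; simp
      have a2 : |(s.2.2.2 : ℝ)| = (s.2.2.2.natAbs : ℝ) := by
        rw [← Int.cast_abs, Int.abs_eq_natAbs]; simp
      rw [a1] at t5
      rw [a2] at t6
      have := (abs_add_three _ _ _).trans (add_le_add (add_le_add t5 t6) ih2)
      refine this.trans (le_of_eq ?_)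
      push_cast
      ring

/-- summary for one entry -/
lemma entry (C : TP) (D : ℤ) (U : TP) (hD : 0 < D) (h : close D (drop0 (nrm C)) U = true)
    (hU : ebd U ≤ 30000000) :
    ∃ R : ℕ → ℕ → ℝ, (∀ x y : ℝ, evI C x y / D =
      ∑ p ∈ range 24, ∑ q ∈ range 24, (W (x - th p) * W (y - th q)) * R p q) ∧
      ∀ p q, |R p q - (nv p q U : ℝ) / 10 ^ 13| ≤ 3 / 10 ^ 6 := by
  refine ⟨fun p q => lin (G1 p q) (G2 p q) (drop0 (nrm C)) / D, ?_, ?_⟩
  · intro x y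
    have hm := (close_bd D hD 0 0 _ _ h).1
    rw [← evI_nrm, ← evI_drop0, interp _ hm, sum_div]
    refine sum_congr rfl fun p _ => ?_
    rw [sum_div]
    refine sum_congr rfl fun q _ => ?_
    ring
  · intro p q
    refine ((close_bd D hD p q _ _ h).2).trans ?_
    have : (ebd U : ℝ) ≤ 30000000 := by exact_mod_cast hU
    rw [div_le_div_iff₀ (by positivity) (by positivity)]
    nlinarith

/-! ### the positivity checks -/

lemma chk1_ok {a : ℤ} (h : chk1 a = true) (w : ℝ) : 0 ≤ (a : ℝ) * w ^ 2 := by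
  simp only [chk1, decide_eq_true_eq] at h
  have : (0 : ℝ) ≤ a := by exact_mod_cast h
  positivity

lemma chk2_ok {a b c : ℤ} (h : chk2 a b c = true) (w0 w1 : ℝ) :
    0 ≤ (a : ℝ) * w0 ^ 2 + c * w1 ^ 2 + 2 * (b * w1 * w0) := by
  simp only [chk2, Bool.and_eq_true, decide_eq_true_eq] at h
  have ha : (0 : ℝ) < a := by exact_mod_cast h.1
  have h1 := chk1_ok h.2 w1
  push_cast at h1
  refine le_of_mul_le_mul_left ?_ ha
  rw [mul_zero]
  nlinarith [sq_nonneg ((a : ℝ) * w0 + b * w1)]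

lemma chk3_ok {a00 a01 a02 a11 a12 a22 : ℤ} (h : chk3 a00 a01 a02 a11 a12 a22 = true)
    (w0 w1 w2 : ℝ) :
    0 ≤ (a00 : ℝ) * w0 ^ 2 + a11 * w1 ^ 2 + a22 * w2 ^ 2
      + 2 * (a01 * w1 * w0 + a02 * w2 * w0 + a12 * w2 * w1) := by
  simp only [chk3, Bool.and_eq_true, decide_eq_true_eq] at h
  have ha : (0 : ℝ) < a00 := by exact_mod_cast h.1
  have h1 := chk2_ok h.2 w1 w2
  push_cast at h1
  refine le_of_mul_le_mul_left ?_ ha
  rw [mul_zero]
  nlinarith [sq_nonneg ((a00 : ℝ) * w0 + a01 * w1 + a02 * w2)]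

lemma chk4_ok {a00 a01 a02 a03 a11 a12 a13 a22 a23 a33 : ℤ}
    (h : chk4 a00 a01 a02 a03 a11 a12 a13 a22 a23 a33 = true) (w0 w1 w2 w3 : ℝ) :
    0 ≤ (a00 : ℝ) * w0 ^ 2 + a11 * w1 ^ 2 + a22 * w2 ^ 2 + a33 * w3 ^ 2
      + 2 * (a01 * w1 * w0 + a02 * w2 * w0 + a12 * w2 * w1 + a03 * w3 * w0 + a13 * w3 * w1
        + a23 * w3 * w2) := by
  simp only [chk4, Bool.and_eq_true, decide_eq_true_eq] at h
  have ha : (0 : ℝ) < a00 := by exact_mod_cast h.1
  have h1 := chk3_ok h.2 w1 w2 w3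
  push_cast at h1
  refine le_of_mul_le_mul_left ?_ ha
  rw [mul_zero]
  have e : (a00 : ℝ) * ((a00 : ℝ) * w0 ^ 2 + a11 * w1 ^ 2 + a22 * w2 ^ 2 + a33 * w3 ^ 2
      + 2 * (a01 * w1 * w0 + a02 * w2 * w0 + a12 * w2 * w1 + a03 * w3 * w0 + a13 * w3 * w1
        + a23 * w3 * w2))
      = ((a00 : ℝ) * w0 + a01 * w1 + a02 * w2 + a03 * w3) ^ 2 + (((a00 : ℝ) * a11 - a01 * a01) * w1 ^ 2
        + (a00 * a22 - a02 * a02) * w2 ^ 2 + (a00 * a33 - a03 * a03) * w3 ^ 2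
        + 2 * ((a00 * a12 - a01 * a02) * w2 * w1 + (a00 * a13 - a01 * a03) * w3 * w1
          + (a00 * a23 - a02 * a03) * w3 * w2)) := by ring
  rw [e]
  exact add_nonneg (sq_nonneg _) h1

lemma chk5_ok {a00 a01 a02 a03 a04 a11 a12 a13 a14 a22 a23 a24 a33 a34 a44 : ℤ}
    (h : chk5 a00 a01 a02 a03 a04 a11 a12 a13 a14 a22 a23 a24 a33 a34 a44 = true)
    (w0 w1 w2 w3 w4 : ℝ) :
    0 ≤ (a00 : ℝ) * w0 ^ 2 + a11 * w1 ^ 2 + a22 * w2 ^ 2 + a33 * w3 ^ 2 + a44 * w4 ^ 2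
      + 2 * (a01 * w1 * w0 + a02 * w2 * w0 + a12 * w2 * w1 + a03 * w3 * w0 + a13 * w3 * w1
        + a23 * w3 * w2 + a04 * w4 * w0 + a14 * w4 * w1 + a24 * w4 * w2 + a34 * w4 * w3) := by
  simp only [chk5, Bool.and_eq_true, decide_eq_true_eq] at h
  have ha : (0 : ℝ) < a00 := by exact_mod_cast h.1
  have h1 := chk4_ok h.2 w1 w2 w3 w4
  push_cast at h1
  refine le_of_mul_le_mul_left ?_ ha
  rw [mul_zero]
  have e : (a00 : ℝ) * ((a00 : ℝ) * w0 ^ 2 + a11 * w1 ^ 2 + a22 * w2 ^ 2 + a33 * w3 ^ 2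
      + a44 * w4 ^ 2
      + 2 * (a01 * w1 * w0 + a02 * w2 * w0 + a12 * w2 * w1 + a03 * w3 * w0 + a13 * w3 * w1
        + a23 * w3 * w2 + a04 * w4 * w0 + a14 * w4 * w1 + a24 * w4 * w2 + a34 * w4 * w3))
      = ((a00 : ℝ) * w0 + a01 * w1 + a02 * w2 + a03 * w3 + a04 * w4) ^ 2
        + (((a00 : ℝ) * a11 - a01 * a01) * w1 ^ 2
        + (a00 * a22 - a02 * a02) * w2 ^ 2 + (a00 * a33 - a03 * a03) * w3 ^ 2
        + (a00 * a44 - a04 * a04) * w4 ^ 2
        + 2 * ((a00 * a12 - a01 * a02) * w2 * w1 + (a00 * a13 - a01 * a03) * w3 * w1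
          + (a00 * a23 - a02 * a03) * w3 * w2 + (a00 * a14 - a01 * a04) * w4 * w1
          + (a00 * a24 - a02 * a04) * w4 * w2 + (a00 * a34 - a03 * a04) * w4 * w3)) := by ring
  rw [e]
  refine add_nonneg (sq_nonneg _) (le_of_le_of_eq h1 ?_)
  ring

lemma chk6_ok {a00 a01 a02 a03 a04 a05 a11 a12 a13 a14 a15 a22 a23 a24 a25 a33 a34 a35 a44 a45
    a55 : ℤ}
    (h : chk6 a00 a01 a02 a03 a04 a05 a11 a12 a13 a14 a15 a22 a23 a24 a25 a33 a34 a35 a44 a45 a55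
      = true) (w0 w1 w2 w3 w4 w5 : ℝ) :
    0 ≤ (a00 : ℝ) * w0 ^ 2 + a11 * w1 ^ 2 + a22 * w2 ^ 2 + a33 * w3 ^ 2 + a44 * w4 ^ 2
      + a55 * w5 ^ 2
      + 2 * (a01 * w1 * w0 + a02 * w2 * w0 + a12 * w2 * w1 + a03 * w3 * w0 + a13 * w3 * w1
        + a23 * w3 * w2 + a04 * w4 * w0 + a14 * w4 * w1 + a24 * w4 * w2 + a34 * w4 * w3
        + a05 * w5 * w0 + a15 * w5 * w1 + a25 * w5 * w2 + a35 * w5 * w3 + a45 * w5 * w4) := by
  simp only [chk6, Bool.and_eq_true, decide_eq_true_eq] at h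
  have ha : (0 : ℝ) < a00 := by exact_mod_cast h.1
  have h1 := chk5_ok h.2 w1 w2 w3 w4 w5
  push_cast at h1
  refine le_of_mul_le_mul_left ?_ ha
  rw [mul_zero]
  have e : (a00 : ℝ) * ((a00 : ℝ) * w0 ^ 2 + a11 * w1 ^ 2 + a22 * w2 ^ 2 + a33 * w3 ^ 2
      + a44 * w4 ^ 2 + a55 * w5 ^ 2
      + 2 * (a01 * w1 * w0 + a02 * w2 * w0 + a12 * w2 * w1 + a03 * w3 * w0 + a13 * w3 * w1
        + a23 * w3 * w2 + a04 * w4 * w0 + a14 * w4 * w1 + a24 * w4 * w2 + a34 * w4 * w3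
        + a05 * w5 * w0 + a15 * w5 * w1 + a25 * w5 * w2 + a35 * w5 * w3 + a45 * w5 * w4))
      = ((a00 : ℝ) * w0 + a01 * w1 + a02 * w2 + a03 * w3 + a04 * w4 + a05 * w5) ^ 2
        + (((a00 : ℝ) * a11 - a01 * a01) * w1 ^ 2
        + (a00 * a22 - a02 * a02) * w2 ^ 2 + (a00 * a33 - a03 * a03) * w3 ^ 2
        + (a00 * a44 - a04 * a04) * w4 ^ 2 + (a00 * a55 - a05 * a05) * w5 ^ 2
        + 2 * ((a00 * a12 - a01 * a02) * w2 * w1 + (a00 * a13 - a01 * a03) * w3 * w1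
          + (a00 * a23 - a02 * a03) * w3 * w2 + (a00 * a14 - a01 * a04) * w4 * w1
          + (a00 * a24 - a02 * a04) * w4 * w2 + (a00 * a34 - a03 * a04) * w4 * w3
          + (a00 * a15 - a01 * a05) * w5 * w1 + (a00 * a25 - a02 * a05) * w5 * w2
          + (a00 * a35 - a03 * a05) * w5 * w3 + (a00 * a45 - a04 * a05) * w5 * w4)) := by ring
  rw [e]
  refine add_nonneg (sq_nonneg _) (le_of_le_of_eq h1 ?_)
  ring

end Pool.Agent.helper86.TorCert
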